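import Pool.Agent.Lib.P0036f5v2.Tree

/-!
# Decision trees with arbitrary outputs
-/

set_option autoImplicit false

namespace Pool.Agent.P0036f5g

open Pool.Agent.P0036f5v2

/-- decision trees over the symbols `α` with outputs in `β` -/
inductive DTo (α β : Type) : Type
  | ret (b : β)
  | ask (d : ℕ) (k : α → DTo α β)

namespace DTo

variable {α β γ : Type}

/-- evaluation with the view `v` -/
def eval (v : ℕ → α) : DTo α β → β
  | ret b => b
  | ask d k => (k (v d)).eval v

/-- sequential composition -/
def bind : DTo α γ → (γ → DTo α β) → DTo α β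
  | ret b, f => f b
  | ask d k, f => ask d fun a => (k a).bind f

/-- sequential composition after a Boolean tree -/
def lift : DT α → (Bool → DTo α β) → DTo α β
  | .ret b, f => f b
  | .ask d k, f => ask d fun a => lift (k a) f

/-- the distinct inner subtrees -/
def asks : DTo α β → Set (DTo α β)
  | ret _ => ∅
  | ask d k => insert (ask d k) (⋃ a, (k a).asks)

/-- all asked distances lie in `1, …, n` -/
def Within (n : ℕ) : DTo α β → Prop
  | ret _ => True
  | ask d k => 1 ≤ d ∧ d ≤ n ∧ ∀ a, (k a).Within n

theorem Within.mono {n n' : ℕ} (h : n ≤ n') {t : DTo α β} (ht : t.Within n) : t.Within n' := by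
  induction t with
  | ret b => trivial
  | ask d k ih => exact ⟨ht.1, ht.2.1.trans h, fun a => ih a (ht.2.2 a)⟩

theorem eval_bind (v : ℕ → α) (t : DTo α γ) (f : γ → DTo α β) :
    (t.bind f).eval v = (f (t.eval v)).eval v := by
  induction t with
  | ret b => rfl
  | ask d k ih => exact ih (v d)

theorem within_bind {n : ℕ} {t : DTo α γ} {f : γ → DTo α β} (ht : t.Within n)
    (hf : ∀ b, (f b).Within n) : (t.bind f).Within n := by
  induction t with
  | ret b => exact hf b
  | ask d k ih => exact ⟨ht.1, ht.2.1, fun a => ih a (ht.2.2 a)⟩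

theorem eval_lift (v : ℕ → α) (t : DT α) (f : Bool → DTo α β) :
    (lift t f).eval v = (f (t.eval v)).eval v := by
  induction t with
  | ret b => rfl
  | ask d k ih => exact ih (v d)

theorem within_lift {n : ℕ} {t : DT α} {f : Bool → DTo α β} (ht : t.Within n)
    (hf : ∀ b, (f b).Within n) : (lift t f).Within n := by
  induction t with
  | ret b => exact hf b
  | ask d k ih => exact ⟨ht.1, ht.2.1, fun a => ih a (ht.2.2 a)⟩

theorem asks_finite [Finite α] (t : DTo α β) : t.asks.Finite := by
  induction t with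
  | ret b => exact Set.finite_empty
  | ask d k ih => exact (Set.finite_iUnion ih).insert _

theorem asks_bind_subset (t : DTo α γ) (f : γ → DTo α β) :
    (t.bind f).asks ⊆ (fun u => u.bind f) '' t.asks ∪ ⋃ b, (f b).asks := by
  induction t with
  | ret b =>
    intro x hx
    exact Or.inr (Set.mem_iUnion.2 ⟨b, hx⟩)
  | ask d k ih =>
    intro x hx
    rcases hx with hx | hx
    · left
      exact ⟨ask d k, Or.inl rfl, hx.symm⟩
    · obtain ⟨a, ha⟩ := Set.mem_iUnion.1 hx
      rcases ih a ha with ⟨u, hu, rfl⟩ | h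
      · left
        exact ⟨u, Or.inr (Set.mem_iUnion.2 ⟨a, hu⟩), rfl⟩
      · exact Or.inr h

theorem asks_lift_subset (t : DT α) (f : Bool → DTo α β) :
    (lift t f).asks ⊆ (fun u => lift u f) '' t.asks ∪ ((f true).asks ∪ (f false).asks) := by
  induction t with
  | ret b =>
    cases b
    · exact fun x hx => Or.inr (Or.inr hx)
    · exact fun x hx => Or.inr (Or.inl hx)
  | ask d k ih =>
    intro x hx
    rcases hx with hx | hx
    · left
      exact ⟨.ask d k, Or.inl rfl, hx.symm⟩
    · obtain ⟨a, ha⟩ := Set.mem_iUnion.1 hx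
      rcases ih a ha with ⟨u, hu, rfl⟩ | h
      · left
        exact ⟨u, Or.inr (Set.mem_iUnion.2 ⟨a, hu⟩), rfl⟩
      · exact Or.inr h

theorem self_mem_asks (t : DTo α β) : t ∈ t.asks ∨ ∃ b, t = ret b := by
  cases t with
  | ret b => exact Or.inr ⟨b, rfl⟩
  | ask d k => exact Or.inl (Or.inl rfl)

/-- A child of an inner subtree is an inner subtree or a leaf. -/
theorem asks_child {t : DTo α β} {d : ℕ} {k : α → DTo α β} (h : ask d k ∈ t.asks) (a : α) :
    k a ∈ t.asks ∨ ∃ b, k a = ret b := by
  induction t with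
  | ret b => exact absurd h (Set.notMem_empty _)
  | ask d' k' ih =>
    rcases h with h | h
    · have h1 : d = d' ∧ k = k' := by
        injection h with h1 h2
        exact ⟨h1, h2⟩
      obtain ⟨rfl, rfl⟩ := h1
      rcases self_mem_asks (k a) with h | h
      · exact Or.inl (Or.inr (Set.mem_iUnion.2 ⟨a, h⟩))
      · exact Or.inr h
    · obtain ⟨a', ha'⟩ := Set.mem_iUnion.1 h
      rcases ih a' ha' with h | h
      · exact Or.inl (Or.inr (Set.mem_iUnion.2 ⟨a', h⟩))
      · exact Or.inr h

theorem le_of_mem_asks {t : DTo α β} {n : ℕ} (ht : t.Within n) {d : ℕ} {k : α → DTo α β}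
    (h : ask d k ∈ t.asks) : d ≤ n := by
  induction t with
  | ret b => exact absurd h (Set.notMem_empty _)
  | ask d' k' ih =>
    rcases h with h | h
    · have h1 : d = d' := by
        injection h
      rw [h1]
      exact ht.2.1
    · obtain ⟨a, ha⟩ := Set.mem_iUnion.1 h
      exact ih a (ht.2.2 a) ha

/-- the cost: number of distinct inner subtrees -/
noncomputable def nd (t : DTo α β) : ℕ := t.asks.ncard

theorem nd_ret (b : β) : (ret b : DTo α β).nd = 0 := Set.ncard_empty _

theorem nd_lift_le [Finite α] (t : DT α) (f : Bool → DTo α β) :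
    (lift t f).nd ≤ t.nd + ((f true).nd + (f false).nd) := by
  unfold nd DT.nd
  have hfin : ((fun u => lift u f) '' t.asks ∪ ((f true).asks ∪ (f false).asks)).Finite :=
    (t.asks_finite.image _).union ((asks_finite _).union (asks_finite _))
  refine (Set.ncard_le_ncard (asks_lift_subset t f) hfin).trans ?_
  refine (Set.ncard_union_le _ _).trans ?_
  refine Nat.add_le_add (Set.ncard_image_le t.asks_finite) (Set.ncard_union_le _ _)

theorem ncard_iUnion_le {ι δ : Type} [Finite ι] (s : ι → Set δ) (c : ℕ)
    (h : ∀ i, (s i).ncard ≤ c) : (⋃ i, s i).ncard ≤ Nat.card ι * c := by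
  classical
  have := Fintype.ofFinite ι
  have key : ∀ T : Finset ι, (⋃ i ∈ T, s i).ncard ≤ T.card * c := by
    intro T
    induction T using Finset.induction_on with
    | empty => simp
    | insert a T ha ih =>
      rw [Finset.set_biUnion_insert, Finset.card_insert_of_notMem ha, Nat.add_mul, Nat.one_mul,
        Nat.add_comm]
      exact (Set.ncard_union_le _ _).trans (Nat.add_le_add (h a) ih)
  have h1 := key Finset.univ
  rw [Finset.card_univ, ← Nat.card_eq_fintype_card] at h1
  simpa using h1

theorem nd_bind_le [Finite α] [Finite γ] (t : DTo α γ) (f : γ → DTo α β) (c : ℕ)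
    (h : ∀ b, (f b).nd ≤ c) : (t.bind f).nd ≤ t.nd + Nat.card γ * c := by
  unfold nd
  have hfin : ((fun u => u.bind f) '' t.asks ∪ ⋃ b, (f b).asks).Finite :=
    (t.asks_finite.image _).union (Set.finite_iUnion fun b => asks_finite _)
  refine (Set.ncard_le_ncard (asks_bind_subset t f) hfin).trans ?_
  refine (Set.ncard_union_le _ _).trans ?_
  exact Nat.add_le_add (Set.ncard_image_le t.asks_finite) (ncard_iUnion_le _ c h)

theorem nd_ask_le [Finite α] (d : ℕ) (k : α → DTo α β) (c : ℕ) (h : ∀ a, (k a).nd ≤ c) :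
    (ask d k).nd ≤ 1 + Nat.card α * c := by
  unfold nd
  show (insert (ask d k) (⋃ a, (k a).asks)).ncard ≤ _
  refine (Set.ncard_insert_le _ _).trans ?_
  have := ncard_iUnion_le (fun a => (k a).asks) c h
  omega

end DTo

end Pool.Agent.P0036f5g
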