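import Pool.Agent.Lib.P0036f5v2.Prog
import Pool.Agent.Lib.P0036f5g.GTree

/-!
# Deterministic machines driven by decision trees, with arbitrary notes

At the first visit of a letter cell the machine writes the letter together with a note from `S`; the
note for the next cell is obtained by evaluating a decision tree on the cells to the left of the
frontier.
-/

set_option autoImplicit false

namespace Pool.Agent.P0036f5g

open Relation Pool.Agent.P0036f5v2

/-- tree-driven programs: `nxt` updates the phase, `upd r` computes the note written in phase `r`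
(output `inl`), `acc r` decides acceptance if the input ends in phase `r` (output `inr`). -/
structure GProg (A S : Type) where
  nxt : ℕ → ℕ
  s0 : S
  upd : ℕ → DTo (Option (A × S)) (S ⊕ Bool)
  acc : ℕ → DTo (Option (A × S)) (S ⊕ Bool)

/-- the states of the machine of a program -/
inductive GSt (A S : Type) : Type
  | ready (r : ℕ) (s : S)
  | eval (r : ℕ) (t : DTo (Option (A × S)) (S ⊕ Bool)) (h : ℕ)
  | done

namespace GProg

open Prog (wb okW_wb)

variable {A S : Type} (P : GProg A S) (cv : Bool)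

/-- the transition function -/
def tr : GSt A S → Sym A (Option (A × S)) →
    Option (GSt A S × (A ⊕ Option (A × S)) × Bool)
  | .ready r s, .inp a =>
      some (.eval (P.nxt r) (P.upd (P.nxt r)) 2, .inr (some (a, s)), false)
  | .ready r _, .rend => some (.eval r (P.acc r) 1, .inr none, false)
  | .ready _ _, .wrk _ => none
  | .ready _ _, .lend => none
  | .eval r (.ret o) h, g =>
      if h = 1 then
        match o with
        | .inl s => some (.ready r s, wb g, true)
        | .inr true => some (.done, wb g, true)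
        | .inr false => none
      else some (.eval r (.ret o) (h - 1), wb g, true)
  | .eval r (.ask d f) h, g =>
      if h < d then some (.eval r (.ask d f) (h + 1), wb g, false)
      else if d < h then some (.eval r (.ask d f) (h - 1), wb g, true)
      else match g with
        | .wrk x => some (.eval r (f x) (h + 1), .inr x, false)
        | _ => none
  | .done, g => some (.done, wb g, true)

/-- the machine of a program -/
@[reducible] def mach : Mach A where
  Q := GSt A S
  W := Option (A × S)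
  δ := fun q g => {x | P.tr q g = some x}
  qI := .ready 0 P.s0
  F := {.done}

theorem mach_det : P.mach.Det := by
  intro q s x hx y hy
  have hx' : P.tr q s = some x := hx
  have hy' : P.tr q s = some y := hy
  rw [hx'] at hy'
  exact Option.some.inj hy'

/-- content written at the letter with index `i` -/
def cellv (w : List A) (β : ℕ → S) (i : ℕ) : Option (A × S) :=
  (w[i]?).map fun a => (a, β i)

/-- what is seen at distance `d` from the frontier, when `n` letters have been visited -/
def view (w : List A) (β : ℕ → S) (n d : ℕ) : Option (A × S) := cellv w β (n - d)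

/-- the first `n` letter cells carry the computed notes, the rest of the tape is untouched -/
def PGood (w : List A) (β : ℕ → S) (n : ℕ) (c : P.mach.Cfg) : Prop :=
  (∀ j, c.tape j = if 1 ≤ j ∧ j ≤ n then Sym.wrk (cellv w β (j - 1)) else P.mach.initTape w j) ∧
    ∀ j, 1 ≤ j → j ≤ w.length → (j ∈ c.seen ↔ j ≤ n)

/-- a move inside the visited part of the tape -/
theorem step_inner {w : List A} {β : ℕ → S} {n : ℕ} (hn : n ≤ w.length) {c : P.mach.Cfg}
    (hg : P.PGood w β n c) (hpos : c.pos ≤ n ∨ c.pos = w.length + 1) (q : GSt A S)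
    (d : Bool) (h0 : c.pos = 0 → d = true)
    (htr : P.tr c.st (c.tape c.pos) = some (q, wb (c.tape c.pos), d)) :
    ∃ c' : P.mach.Cfg, P.mach.Step cv w.length c c' ∧ c'.st = q ∧
      c'.pos = (if d = true then c.pos + 1 else c.pos - 1) ∧ P.PGood w β n c' := by
  have hno : ¬ (1 ≤ c.pos ∧ c.pos ≤ w.length ∧ c.pos ∉ c.seen) := by
    rintro ⟨h1, h2, h3⟩
    apply h3
    rw [hg.2 c.pos h1 h2]
    rcases hpos with h | h
    · exact h
    · omega
  refine ⟨⟨q, if d = true then c.pos + 1 else c.pos - 1, c.tape, insert c.pos c.seen⟩, ?_, rfl,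
    rfl, ?_⟩
  · refine ⟨?_, wb (c.tape c.pos), d, htr, h0, rfl, fun h => absurd h hno,
      fun _ => ⟨rfl, okW_wb cv _⟩, rfl⟩
    rcases hpos with h | h <;> omega
  · refine ⟨hg.1, fun j h1 h2 => ?_⟩
    constructor
    · rintro (h | h)
      · rcases hpos with h' | h' <;> omega
      · exact (hg.2 j h1 h2).1 h
    · intro h
      exact Or.inr ((hg.2 j h1 h2).2 h)

/-- walking to the queried distance -/
theorem walk_ask {w : List A} {β : ℕ → S} {n : ℕ} (hn : n ≤ w.length) (r d : ℕ)
    (f : Option (A × S) → DTo (Option (A × S)) (S ⊕ Bool)) (hd : 1 ≤ d) (hdn : d ≤ n) :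
    ∀ (e h : ℕ) (c : P.mach.Cfg), (h = d + e ∨ d = h + e) → 1 ≤ h → h ≤ n + 1 →
      c.st = GSt.eval r (.ask d f) h → c.pos + h = n + 1 → P.PGood w β n c →
      ∃ c' : P.mach.Cfg, ReflTransGen (P.mach.Step cv w.length) c c' ∧
        c'.st = GSt.eval r (.ask d f) d ∧ c'.pos + d = n + 1 ∧ P.PGood w β n c' := by
  intro e
  induction e with
  | zero =>
    intro h c he h1 h2 hst hpos hg
    have : h = d := by omega
    subst this
    exact ⟨c, ReflTransGen.refl, hst, hpos, hg⟩
  | succ e ih =>
    intro h c he h1 h2 hst hpos hg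
    rcases he with he | he
    · -- `h > d`: move right
      obtain ⟨c₁, hs₁, hst₁, hp₁, hg₁⟩ := P.step_inner cv hn hg (Or.inl (by omega))
        (.eval r (.ask d f) (h - 1)) true (fun _ => rfl) (by
          rw [hst]
          have e1 : ¬ (h < d) := by omega
          have e2 : d < h := by omega
          simp [tr, e1, e2])
      obtain ⟨c₂, hr₂, hst₂, hp₂, hg₂⟩ := ih (h - 1) c₁ (by omega) (by omega) (by omega) hst₁
        (by simp at hp₁; omega) hg₁
      exact ⟨c₂, ReflTransGen.head hs₁ hr₂, hst₂, hp₂, hg₂⟩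
    · -- `h < d`: move left
      obtain ⟨c₁, hs₁, hst₁, hp₁, hg₁⟩ := P.step_inner cv hn hg (Or.inl (by omega))
        (.eval r (.ask d f) (h + 1)) false (fun h0 => by omega) (by
          rw [hst]
          have e1 : h < d := by omega
          simp [tr, e1])
      obtain ⟨c₂, hr₂, hst₂, hp₂, hg₂⟩ := ih (h + 1) c₁ (by omega) (by omega) (by omega) hst₁
        (by simp at hp₁; omega) hg₁
      exact ⟨c₂, ReflTransGen.head hs₁ hr₂, hst₂, hp₂, hg₂⟩

/-- evaluation of a tree -/
theorem run_eval {w : List A} {β : ℕ → S} {n : ℕ} (hn : n ≤ w.length) (r : ℕ)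
    (t : DTo (Option (A × S)) (S ⊕ Bool)) :
    t.Within n → ∀ (h : ℕ) (c : P.mach.Cfg), 1 ≤ h → h ≤ n + 1 →
      c.st = GSt.eval r t h → c.pos + h = n + 1 → P.PGood w β n c →
      ∃ (c' : P.mach.Cfg) (h' : ℕ), ReflTransGen (P.mach.Step cv w.length) c c' ∧ 1 ≤ h' ∧
        h' ≤ n + 1 ∧ c'.st = GSt.eval r (.ret (t.eval (view w β n))) h' ∧
        c'.pos + h' = n + 1 ∧ P.PGood w β n c' := by
  induction t with
  | ret b =>
    intro _ h c h1 h2 hst hpos hg
    exact ⟨c, h, ReflTransGen.refl, h1, h2, hst, hpos, hg⟩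
  | ask d f ih =>
    intro hW h c h1 h2 hst hpos hg
    obtain ⟨hd1, hdn, hf⟩ := hW
    obtain ⟨c₁, hr₁, hst₁, hp₁, hg₁⟩ : ∃ c' : P.mach.Cfg,
        ReflTransGen (P.mach.Step cv w.length) c c' ∧
        c'.st = GSt.eval r (.ask d f) d ∧ c'.pos + d = n + 1 ∧ P.PGood w β n c' := by
      rcases le_total h d with hle | hle
      · obtain ⟨e, he⟩ := Nat.exists_eq_add_of_le hle
        exact P.walk_ask cv hn r d f hd1 hdn e h c (Or.inr he) h1 h2 hst hpos hg
      · obtain ⟨e, he⟩ := Nat.exists_eq_add_of_le hle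
        exact P.walk_ask cv hn r d f hd1 hdn e h c (Or.inl he) h1 h2 hst hpos hg
    have htape : c₁.tape c₁.pos = Sym.wrk (view w β n d) := by
      rw [hg₁.1, if_pos (by omega)]
      unfold view
      congr 2
      omega
    obtain ⟨c₂, hs₂, hst₂, hp₂, hg₂⟩ := P.step_inner cv hn hg₁ (Or.inl (by omega))
      (.eval r (f (view w β n d)) (d + 1)) false (fun h0 => by omega) (by
        rw [hst₁, htape]
        simp [tr, wb])
    obtain ⟨c₃, h', hr₃, h1', h2', hst₃, hp₃, hg₃⟩ := ih (view w β n d) (hf _) (d + 1) c₂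
      (by omega) (by omega) hst₂ (by simp at hp₂; omega) hg₂
    exact ⟨c₃, h', (hr₁.tail hs₂).trans hr₃, h1', h2', hst₃, hp₃, hg₃⟩

/-- returning towards the frontier with a result -/
theorem walk_ret {w : List A} {β : ℕ → S} {n : ℕ} (hn : n ≤ w.length) (r : ℕ)
    (o : S ⊕ Bool) :
    ∀ (h : ℕ) (c : P.mach.Cfg), h + 1 ≤ n + 1 → c.st = GSt.eval r (.ret o) (h + 1) →
      c.pos + (h + 1) = n + 1 → P.PGood w β n c →
      ∃ c' : P.mach.Cfg, ReflTransGen (P.mach.Step cv w.length) c c' ∧
        c'.st = GSt.eval r (.ret o) 1 ∧ c'.pos = n ∧ P.PGood w β n c' := by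
  intro h
  induction h with
  | zero =>
    intro c h2 hst hpos hg
    exact ⟨c, ReflTransGen.refl, hst, by omega, hg⟩
  | succ h ih =>
    intro c h2 hst hpos hg
    obtain ⟨c₁, hs₁, hst₁, hp₁, hg₁⟩ := P.step_inner cv hn hg (Or.inl (by omega))
      (.eval r (.ret o) (h + 1)) true (fun _ => rfl) (by
        rw [hst]
        simp [tr])
    obtain ⟨c₂, hr₂, hst₂, hp₂, hg₂⟩ := ih c₁ (by omega) hst₁ (by simp at hp₁; omega) hg₁
    exact ⟨c₂, ReflTransGen.head hs₁ hr₂, hst₂, hp₂, hg₂⟩

/-- the phase after `i` letters -/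
def ph : ℕ → ℕ
  | 0 => 0
  | i + 1 => P.nxt (ph i)

/-- The machine reaches the frontier with the correct note. -/
theorem reach_frontier (w : List A) (β : ℕ → S) (hβ0 : β 0 = P.s0)
    (hupd : ∀ i, i < w.length → (P.upd (P.ph (i + 1))).Within (i + 1) ∧
      (P.upd (P.ph (i + 1))).eval (view w β (i + 1)) = .inl (β (i + 1))) :
    ∀ i, i ≤ w.length → ∃ c : P.mach.Cfg,
      ReflTransGen (P.mach.Step cv w.length) (P.mach.init w) c ∧
      c.st = GSt.ready (P.ph i) (β i) ∧ c.pos = i + 1 ∧ P.PGood w β i c := by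
  intro i
  induction i with
  | zero =>
    intro _
    refine ⟨P.mach.init w, ReflTransGen.refl, ?_, rfl, ?_, ?_⟩
    · rw [hβ0]; rfl
    · intro j
      rw [if_neg (by omega)]
      rfl
    · intro j h1 h2
      simp [Mach.init]
      omega
  | succ i ih =>
    intro hi
    obtain ⟨c, hr, hst, hpos, hg⟩ := ih (by omega)
    have hi' : i < w.length := by omega
    have htape : c.tape c.pos = Sym.inp w[i] := by
      rw [hg.1, if_neg (by omega), hpos]
      simp [Mach.initTape, List.getElem?_eq_getElem hi']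
    have hns : c.pos ∉ c.seen := by
      rw [hg.2 c.pos (by omega) (by omega)]
      omega
    -- first visit
    let c₁ : P.mach.Cfg := ⟨.eval (P.nxt (P.ph i)) (P.upd (P.nxt (P.ph i))) 2, i,
      Function.update c.tape c.pos (Sym.ofW (.inr (some (w[i], β i)))), insert c.pos c.seen⟩
    have hstep : P.mach.Step cv w.length c c₁ := by
      refine ⟨by omega, .inr (some (w[i], β i)), false, ?_, by intro h; omega, by simp [c₁, hpos],
        fun _ => rfl, fun h => absurd ⟨by omega, by omega, hns⟩ h, rfl⟩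
      show P.tr c.st (c.tape c.pos) = _
      rw [hst, htape]
      rfl
    have hg₁ : P.PGood w β (i + 1) c₁ := by
      refine ⟨fun j => ?_, fun j h1 h2 => ?_⟩
      · by_cases hj : j = i + 1
        · subst hj
          rw [if_pos (by omega)]
          simp only [c₁]
          rw [hpos, Function.update_self]
          simp [Sym.ofW, cellv, List.getElem?_eq_getElem hi']
        · simp only [c₁]
          rw [hpos, Function.update_of_ne hj, hg.1 j]
          by_cases hj2 : 1 ≤ j ∧ j ≤ i
          · rw [if_pos hj2, if_pos (by omega)]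
          · rw [if_neg hj2, if_neg (by omega)]
      · simp only [c₁]
        rw [hpos]
        constructor
        · rintro (h' | h')
          · omega
          · have := (hg.2 j h1 h2).1 h'; omega
        · intro h'
          by_cases hj : j = i + 1
          · left; exact hj
          · right; exact (hg.2 j h1 h2).2 (by omega)
    obtain ⟨hW, hE⟩ := hupd i hi'
    obtain ⟨c₂, h', hr₂, h1', h2', hst₂, hp₂, hg₂⟩ := P.run_eval cv (n := i + 1) (by omega)
      (P.ph (i + 1)) (P.upd (P.ph (i + 1))) hW 2 c₁ (by omega) (by omega) rfl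
      (show i + 2 = i + 1 + 1 by omega) hg₁
    obtain ⟨h'', rfl⟩ : ∃ h'', h' = h'' + 1 := ⟨h' - 1, by omega⟩
    obtain ⟨c₃, hr₃, hst₃, hp₃, hg₃⟩ := P.walk_ret cv (n := i + 1) (by omega) (P.ph (i + 1)) _
      h'' c₂ (by omega) hst₂ hp₂ hg₂
    obtain ⟨c₄, hs₄, hst₄, hp₄, hg₄⟩ := P.step_inner cv (n := i + 1) (by omega) hg₃
      (Or.inl (by omega)) (.ready (P.ph (i + 1)) (β (i + 1))) true (fun _ => rfl) (by
        rw [hst₃, hE]
        simp [tr])
    refine ⟨c₄, (((hr.tail hstep).trans hr₂).trans hr₃).tail hs₄, hst₄, ?_, hg₄⟩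
    rw [hp₄]
    simp [hp₃]

/-- The language of the machine of a program. -/
theorem mem_lang (w : List A) (β : ℕ → S) (hβ0 : β 0 = P.s0)
    (hupd : ∀ i, i < w.length → (P.upd (P.ph (i + 1))).Within (i + 1) ∧
      (P.upd (P.ph (i + 1))).eval (view w β (i + 1)) = .inl (β (i + 1)))
    (hacc : (P.acc (P.ph w.length)).Within w.length) (b : Bool)
    (hb : (P.acc (P.ph w.length)).eval (view w β w.length) = .inr b) :
    w ∈ P.mach.lang cv ↔ b = true := by
  obtain ⟨c, hr, hst, hpos, hg⟩ := P.reach_frontier cv w β hβ0 hupd w.length le_rfl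
  have htape : c.tape c.pos = Sym.rend := by
    rw [hg.1, if_neg (by omega), hpos]
    simp [Mach.initTape]
  obtain ⟨c₁, hs₁, hst₁, hp₁, hg₁⟩ := P.step_inner cv le_rfl hg (Or.inr hpos)
    (.eval (P.ph w.length) (P.acc (P.ph w.length)) 1) false
    (fun h0 => by omega) (by rw [hst, htape]; rfl)
  obtain ⟨c₂, h', hr₂, h1', h2', hst₂, hp₂, hg₂⟩ := P.run_eval cv le_rfl (P.ph w.length)
    (P.acc (P.ph w.length)) hacc 1 c₁ le_rfl (by omega) hst₁ (by simp at hp₁; omega) hg₁
  obtain ⟨h'', rfl⟩ : ∃ h'', h' = h'' + 1 := ⟨h' - 1, by omega⟩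
  obtain ⟨c₃, hr₃, hst₃, hp₃, hg₃⟩ := P.walk_ret cv le_rfl (P.ph w.length) _ h'' c₂
    (by omega) hst₂ hp₂ hg₂
  have hreach := ((hr.tail hs₁).trans hr₂).trans hr₃
  rw [hb] at hst₃
  cases b with
  | true =>
    obtain ⟨c₄, hs₄, hst₄, hp₄, hg₄⟩ := P.step_inner cv le_rfl hg₃ (Or.inl (by omega)) .done
      true (fun _ => rfl) (by rw [hst₃]; simp [tr])
    have hp₄' : c₄.pos = w.length + 1 := by rw [hp₄]; simp [hp₃]
    obtain ⟨c₅, hs₅, hst₅, hp₅, hg₅⟩ := P.step_inner cv le_rfl hg₄ (Or.inr hp₄') .done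
      true (fun _ => rfl) (by rw [hst₄]; simp [tr])
    refine ⟨fun _ => rfl, fun _ => ⟨c₅, (hreach.tail hs₄).tail hs₅, ?_, ?_⟩⟩
    · rw [hp₅, hp₄']; simp
    · rw [hst₅]; exact Set.mem_singleton _
  | false =>
    refine ⟨fun h => ?_, fun h => by simp at h⟩
    exfalso
    refine Mach.not_mem_lang_of_stuck P.mach_det w c₃ hreach ?_ (by omega) h
    rintro c' ⟨_, x, d, hδ, _⟩
    have : P.tr c₃.st (c₃.tape c₃.pos) = some (c'.st, x, d) := hδ
    rw [hst₃] at this
    simp [tr] at this

end GProg

end Pool.Agent.P0036f5g
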