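import Pool.Agent.Lib.P0036f5g.GMark

/-!
# Machines all of whose computations write the same symbols: transition tables of the prefixes
-/

set_option autoImplicit false

namespace Pool.Agent.P0036f5g

open Pool.Agent.P0036f5v2 Relation
open Pool.Agent.P0036f5w (mv mvf rtg_mono)

variable {A : Type} (M : Mach A) (g : ℕ → Sym A M.W) (cv : Bool)

/-- one move on visited cells -/
def VStep (w : List A) (c c' : ℕ × M.Q) : Prop :=
  c.1 ≤ w.length + 1 ∧ ∃ d, mvf M cv c.2 (symM M g w (c.1 + 1) c.1) d c'.2 ∧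
    (c.1 = 0 → d = true) ∧ c'.1 = if d = true then c.1 + 1 else c.1 - 1

/-- moves from the cells `0, …, i`, all visited -/
def StepV (w : List A) (i : ℕ) (c c' : ℕ × M.Q) : Prop := c.1 ≤ i ∧ VStep M g cv w c c'

/-- moves from the cells `0, …, i` -/
def StepJ (w : List A) (i : ℕ) (c c' : ℕ × ℕ × M.Q) : Prop := c.2.1 ≤ i ∧ JStep M g cv w c c'

/-- the table of the cells `0, …, i`, all visited -/
def TabM (w : List A) (i : ℕ) (s s' : M.Q) : Prop :=
  ReflTransGen (StepV M g cv w i) (i, s) (i + 1, s')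

/-- the states in which cell `i + 1` can be entered for the first time -/
def IniM (w : List A) (i : ℕ) (s' : M.Q) : Prop :=
  ReflTransGen (StepJ M g cv w i) (1, 1, M.qI) (i + 1, i + 1, s')

/-- the graph of the window of the cells `i + 1, …, i + L` -/
def WJ (w : List A) (i L : ℕ) (x y : ℕ × ℕ × M.Q) : Prop :=
  (x.2.1 = 0 ∧ y.2.1 = 1 ∧ y.1 = x.1 ∧ TabM M g cv w i x.2.2 y.2.2) ∨
    (1 ≤ x.2.1 ∧ x.2.1 ≤ L ∧ ∃ d, mvM M g cv w (i + x.1) (i + x.2.1) x.2.2 d y.2.2 ∧
      y.2.1 = (if d = true then x.2.1 + 1 else x.2.1 - 1) ∧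
      y.1 = if x.2.1 = x.1 then x.1 + 1 else x.1)

variable {M g cv}

theorem symM_lt (w : List A) {j x : ℕ} (h : x < j) : symM M g w j x = symM M g w (x + 1) x := by
  unfold symM
  by_cases h3 : x = 0
  · rw [if_pos h3, if_pos h3]
  · rw [if_neg h3, if_neg h3]
    cases w[x - 1]? with
    | none => rfl
    | some a =>
      simp only
      rw [if_pos h, if_pos (Nat.lt_succ_self x)]

theorem jstep_iff {w : List A} {j x : ℕ} {s : M.Q} (h : x < j) (c' : ℕ × ℕ × M.Q) :
    JStep M g cv w (j, x, s) c' ↔ VStep M g cv w (x, s) c'.2 ∧ c'.1 = j := by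
  unfold JStep VStep mvM
  simp only
  rw [if_neg (by omega : ¬ x = j), symM_lt w h]
  constructor
  · rintro ⟨h1, d, h2, h3, h4, h5⟩
    rw [if_neg (by omega)] at h2
    exact ⟨⟨h1, d, h2, h3, h4⟩, h5⟩
  · rintro ⟨⟨h1, d, h2, h3, h4⟩, h5⟩
    refine ⟨h1, d, ?_, h3, h4, h5⟩
    rw [if_neg (by omega)]
    exact h2

theorem stepV_lift {w : List A} {i j : ℕ} (hj : i + 1 ≤ j) {c c' : ℕ × M.Q}
    (h : ReflTransGen (StepV M g cv w i) c c') :
    ReflTransGen (StepJ M g cv w i) (j, c) (j, c') := by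
  induction h with
  | refl => exact ReflTransGen.refl
  | @tail b c' _ h2 ih =>
    refine ih.tail ⟨h2.1, ?_⟩
    have h3 : b.1 ≤ i := h2.1
    exact (jstep_iff (x := b.1) (s := b.2) (by omega) (j, c')).2 ⟨h2.2, rfl⟩

theorem stepV_mono {w : List A} {i j : ℕ} (h : i ≤ j) {c c' : ℕ × M.Q}
    (hc : ReflTransGen (StepV M g cv w i) c c') : ReflTransGen (StepV M g cv w j) c c' :=
  rtg_mono (fun _ _ h1 => ⟨h1.1.trans h, h1.2⟩) hc

theorem stepJ_mono {w : List A} {i j : ℕ} (h : i ≤ j) {c c' : ℕ × ℕ × M.Q}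
    (hc : ReflTransGen (StepJ M g cv w i) c c') : ReflTransGen (StepJ M g cv w j) c c' :=
  rtg_mono (fun _ _ h1 => ⟨h1.1.trans h, h1.2⟩) hc

/-- a path on visited cells -/
theorem stepJ_proj {w : List A} {i : ℕ} {c c' : ℕ × ℕ × M.Q} (hc : i + 1 ≤ c.1)
    (h : ReflTransGen (StepJ M g cv w i) c c') :
    c'.1 = c.1 ∧ ReflTransGen (StepV M g cv w i) c.2 c'.2 := by
  induction h with
  | refl => exact ⟨rfl, ReflTransGen.refl⟩
  | @tail b c' _ h2 ih =>
    have h3 : b.2.1 ≤ i := h2.1
    have h4 := (jstep_iff (j := b.1) (x := b.2.1) (s := b.2.2) (by rw [ih.1]; omega) c').1 h2.2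
    exact ⟨h4.2.trans ih.1, ih.2.tail ⟨h2.1, h4.1⟩⟩

theorem wj_sound {w : List A} {i L : ℕ} (hL : i + L ≤ w.length + 1) {x y : ℕ × ℕ × M.Q}
    (hx : 1 ≤ x.1) (hx' : x.2.1 ≤ x.1) (h : ReflTransGen (WJ M g cv w i L) x y) :
    (1 ≤ y.1 ∧ y.2.1 ≤ y.1) ∧ ReflTransGen (StepJ M g cv w (i + L))
      (i + x.1, i + x.2.1, x.2.2) (i + y.1, i + y.2.1, y.2.2) := by
  induction h with
  | refl => exact ⟨⟨hx, hx'⟩, ReflTransGen.refl⟩
  | @tail y z _ hyz ih =>
    obtain ⟨⟨hy, hy'⟩, ih⟩ := ih
    rcases hyz with ⟨h1, h2, h0, h3⟩ | ⟨h1, h2, d, h3, h4, h5⟩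
    · refine ⟨⟨by omega, by omega⟩, ih.trans ?_⟩
      rw [h1, h2, h0]
      exact stepJ_mono (by omega) (stepV_lift (j := i + y.1) (by omega) h3)
    · refine ⟨⟨?_, ?_⟩, ih.tail ⟨by show i + y.2.1 ≤ i + L; omega, ?_⟩⟩
      · rw [h5]
        split_ifs <;> omega
      · rw [h4, h5]
        split_ifs <;> omega
      · refine ⟨by show i + y.2.1 ≤ _; omega, d, h3, fun h => ?_, ?_, ?_⟩
        · have h' : i + y.2.1 = 0 := h
          omega
        · show i + z.2.1 = if d = true then i + y.2.1 + 1 else i + y.2.1 - 1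
          rw [h4]
          split_ifs <;> omega
        · show i + z.1 = if i + y.2.1 = i + y.1 then i + y.1 + 1 else i + y.1
          rw [h5]
          split_ifs <;> omega

theorem windowJ {w : List A} {i L J : ℕ} {s' : M.Q} {c : ℕ × ℕ × M.Q} (hcc : c.2.1 ≤ c.1)
    (h : ReflTransGen (StepJ M g cv w (i + L)) c (J, i + L + 1, s')) :
    (∀ x, 1 ≤ x → c.2.1 = i + x →
      ReflTransGen (WJ M g cv w i L) (c.1 - i, x, c.2.2) (J - i, L + 1, s')) ∧
    (c.2.1 ≤ i → i + 1 ≤ c.1 → ∃ s0, ReflTransGen (StepV M g cv w i) c.2 (i + 1, s0) ∧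
        ReflTransGen (WJ M g cv w i L) (c.1 - i, 1, s0) (J - i, L + 1, s')) ∧
    (c.2.1 ≤ i → c.1 ≤ i → ∃ s0, ReflTransGen (StepJ M g cv w i) c (i + 1, i + 1, s0) ∧
        ReflTransGen (WJ M g cv w i L) (1, 1, s0) (J - i, L + 1, s')) := by
  induction h using ReflTransGen.head_induction_on with
  | refl =>
    refine ⟨fun x _ h2 => ?_, fun h1 => ?_, fun h1 => ?_⟩
    · have h2' : i + L + 1 = i + x := h2
      have h3 : x = L + 1 := by omega
      rw [h3]
    · have h1' : i + L + 1 ≤ i := h1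
      omega
    · have h1' : i + L + 1 ≤ i := h1
      omega
  | @head a c hac _ ih =>
    have hc2 := jstep_le hac.2 hcc
    obtain ⟨ih1, ih2, ih3⟩ := ih hc2
    obtain ⟨h1, h2, d, h3, h4, h5, h6⟩ := hac
    have hc2 : c.2.1 ≤ c.1 := hc2
    refine ⟨fun x hx hax => ?_, fun hai haj => ?_, fun hai haj => ?_⟩
    · -- inside of the window
      have hxL : x ≤ L := by omega
      have hj : a.1 = i + (a.1 - i) := by omega
      have he : WJ M g cv w i L (a.1 - i, x, a.2.2) (c.1 - i, c.2.1 - i, c.2.2) := by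
        refine Or.inr ⟨hx, hxL, d, ?_, ?_, ?_⟩
        · show mvM M g cv w (i + (a.1 - i)) (i + x) a.2.2 d c.2.2
          rw [← hj, ← hax]
          exact h3
        · show c.2.1 - i = if d = true then x + 1 else x - 1
          rw [h5]
          split_ifs <;> omega
        · show c.1 - i = if x = a.1 - i then a.1 - i + 1 else a.1 - i
          rw [h6]
          split_ifs <;> omega
      refine ReflTransGen.head he ?_
      by_cases hc0 : c.2.1 = i
      · have hc1 : i + 1 ≤ c.1 := by
          rw [h6]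
          split_ifs <;> omega
        obtain ⟨s0, h7, h8⟩ := ih2 (by omega) hc1
        have he0 : WJ M g cv w i L (c.1 - i, c.2.1 - i, c.2.2) (c.1 - i, 1, s0) := by
          refine Or.inl ⟨?_, rfl, rfl, ?_⟩
          · show c.2.1 - i = 0
            omega
          · show TabM M g cv w i c.2.2 s0
            have e : c.2 = (i, c.2.2) := Prod.ext hc0 rfl
            rw [e] at h7
            exact h7
        exact ReflTransGen.head he0 h8
      · have h9 : c.2.1 = i + (c.2.1 - i) := by
          cases d <;> simp at h5 <;> omega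
        exact ih1 (c.2.1 - i) (by cases d <;> simp at h5 <;> omega) h9
    · -- on the left, cell `i` visited
      have h7 := (jstep_iff (j := a.1) (x := a.2.1) (s := a.2.2) (by omega) c).1
        ⟨h2, d, h3, h4, h5, h6⟩
      have hs : StepV M g cv w i a.2 c.2 := ⟨hai, h7.1⟩
      by_cases hc : c.2.1 ≤ i
      · obtain ⟨s0, h8, h9⟩ := ih2 hc (by rw [h7.2]; exact haj)
        refine ⟨s0, ReflTransGen.head hs h8, ?_⟩
        rw [h7.2] at h9
        exact h9
      · have hci : c.2.1 = i + 1 := by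
          cases d <;> simp at h5 <;> omega
        refine ⟨c.2.2, ?_, ?_⟩
        · have e : c.2 = (i + 1, c.2.2) := Prod.ext hci rfl
          rw [← e]
          exact ReflTransGen.single hs
        · have h8 := ih1 1 le_rfl hci
          rw [h7.2] at h8
          exact h8
    · -- on the left, cell `i` not visited
      have hs : StepJ M g cv w i a c := ⟨hai, h2, d, h3, h4, h5, h6⟩
      by_cases hc : c.2.1 ≤ i
      · by_cases hc' : c.1 ≤ i
        · obtain ⟨s0, h8, h9⟩ := ih3 hc hc'
          exact ⟨s0, ReflTransGen.head hs h8, h9⟩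
        · have hci : c.1 = i + 1 := by
            split_ifs at h6 <;> omega
          obtain ⟨s0, h8, h9⟩ := ih2 hc (by omega)
          refine ⟨s0, ReflTransGen.head hs ?_, ?_⟩
          · have h10 := stepV_lift (j := i + 1) le_rfl h8
            have e : c = (i + 1, c.2) := Prod.ext hci rfl
            rw [e]
            exact h10
          · have e : c.1 - i = 1 := by omega
            rw [e] at h9
            exact h9
      · have hci : c.2.1 = i + 1 := by
          cases d <;> simp at h5 <;> omega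
        have hcj : c.1 = i + 1 := by
          split_ifs at h6 <;> omega
        refine ⟨c.2.2, ?_, ?_⟩
        · have e : c = (i + 1, i + 1, c.2.2) := Prod.ext hcj (Prod.ext hci rfl)
          rw [← e]
          exact ReflTransGen.single hs
        · have h8 := ih1 1 le_rfl hci
          have e : c.1 - i = 1 := by omega
          rw [e] at h8
          exact h8

theorem tabM_window {w : List A} {i L : ℕ} (h1 : 1 ≤ L) (hL : i + L ≤ w.length + 1)
    {s s' : M.Q} :
    TabM M g cv w (i + L) s s' ↔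
      ReflTransGen (WJ M g cv w i L) (L + 1, L, s) (L + 1, L + 1, s') := by
  constructor
  · intro h
    have h2 := stepV_lift (j := i + L + 1) le_rfl h
    have h3 := (windowJ (c := (i + L + 1, i + L, s)) (by show i + L ≤ i + L + 1; omega) h2).1 L h1
      rfl
    have e : i + L + 1 - i = L + 1 := by omega
    simp only [e] at h3
    exact h3
  · intro h
    have h2 := (wj_sound hL (by show 1 ≤ L + 1; omega) (by show L ≤ L + 1; omega) h).2
    exact (stepJ_proj (by show i + L + 1 ≤ i + (L + 1); omega) h2).2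

theorem iniM_window {w : List A} {i L : ℕ} (hL : i + L ≤ w.length + 1) {s' : M.Q} :
    IniM M g cv w (i + L) s' ↔ ∃ s0, IniM M g cv w i s0 ∧
      ReflTransGen (WJ M g cv w i L) (1, 1, s0) (L + 1, L + 1, s') := by
  have e : i + L + 1 - i = L + 1 := by omega
  constructor
  · intro h
    rcases Nat.eq_zero_or_pos i with hi | hi
    · subst hi
      refine ⟨M.qI, ReflTransGen.refl, ?_⟩
      have h3 := (windowJ (c := (1, 1, M.qI)) le_rfl h).1 1 le_rfl (by simp)
      simpa using h3
    · have h3 := (windowJ (c := (1, 1, M.qI)) le_rfl h).2.2 hi hi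
      simp only [e] at h3
      exact h3
  · rintro ⟨s0, h1, h2⟩
    have h3 := (wj_sound hL (by show 1 ≤ 1; omega) (by show 1 ≤ 1; omega) h2).2
    exact (stepJ_mono (by omega) h1).trans h3

theorem tabM_zero {w : List A} {s s' : M.Q} :
    TabM M g cv w 0 s s' ↔ mv M s Sym.lend true s' := by
  have h0 : ∀ j, symM M g w j 0 = Sym.lend := fun j => by unfold symM; rw [if_pos rfl]
  constructor
  · intro h
    rcases h.cases_head with h | ⟨c, ⟨-, -, d, h3, h4, h5⟩, h6⟩
    · exact absurd (congrArg Prod.fst h) (by simp)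
    · have hd : d = true := h4 rfl
      subst hd
      have h3' : mvf M cv s (symM M g w 1 0) true c.2 := h3
      rw [h0] at h3'
      rcases h6.cases_head with h | ⟨c', h7, -⟩
      · obtain ⟨x, h8, -⟩ := h3'
        rw [h] at h8
        exact ⟨x, h8⟩
      · have h8 := h7.1
        rw [h5] at h8
        simp at h8
  · rintro ⟨x, h⟩
    refine ReflTransGen.single ⟨le_rfl, Nat.zero_le _, true, ?_, fun _ => rfl, by simp⟩
    show mvf M cv s (symM M g w 1 0) true s'
    rw [h0]
    exact ⟨x, h, fun _ h1 _ => absurd rfl h1⟩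

theorem iniM_zero {w : List A} {s' : M.Q} : IniM M g cv w 0 s' ↔ s' = M.qI := by
  constructor
  · intro h
    rcases h.cases_head with h | ⟨c, h, -⟩
    · exact (congrArg (fun p => p.2.2) h).symm
    · have := h.1
      simp at this
  · intro h
    rw [h]
    exact ReflTransGen.refl

theorem path_stepJ {w : List A} {p : ℕ × ℕ × M.Q}
    (hp : ReflTransGen (JStep M g cv w) (1, 1, M.qI) p) :
    1 ≤ p.1 ∧ p.2.1 ≤ p.1 ∧ ReflTransGen (StepJ M g cv w (p.1 - 1)) (1, 1, M.qI) p := by
  induction hp with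
  | refl => exact ⟨le_rfl, le_rfl, ReflTransGen.refl⟩
  | @tail b c _ h2 ih =>
    obtain ⟨h3, h4, h5⟩ := ih
    have h6 := jstep_le h2 h4
    have h7 : c.1 = if b.2.1 = b.1 then b.1 + 1 else b.1 := by
      obtain ⟨-, d, -, -, -, h7⟩ := h2
      exact h7
    refine ⟨by rw [h7]; split_ifs <;> omega, h6, ?_⟩
    refine (stepJ_mono ?_ h5).tail ⟨?_, h2⟩
    · rw [h7]
      split_ifs <;> omega
    · rw [h7]
      split_ifs <;> omega

theorem mem_lang_iffM {w : List A} (hg : Writes M g cv w) :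
    w ∈ M.lang cv ↔ ∃ s ∈ M.F, IniM M g cv w (w.length + 1) s := by
  rw [lang_iffM (cv := cv) hg]
  constructor
  · rintro ⟨s, hF, j, h⟩
    have key : ∀ p, ReflTransGen (JStep M g cv w) (1, 1, M.qI) p → p.1 ≤ w.length + 2 := by
      intro p hp
      induction hp with
      | refl => show 1 ≤ _; omega
      | @tail b c _ h2 ih =>
        obtain ⟨h6, d, -, -, -, h7⟩ := h2
        rw [h7]
        split_ifs <;> omega
    have h1 := key _ h
    have h1' : j ≤ w.length + 2 := h1
    obtain ⟨-, h2, h3⟩ := path_stepJ h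
    have h2' : w.length + 2 ≤ j := h2
    have h4 : j = w.length + 2 := by omega
    subst h4
    exact ⟨s, hF, h3⟩
  · rintro ⟨s, hF, h⟩
    exact ⟨s, hF, w.length + 2, rtg_mono (fun _ _ h1 => h1.2) h⟩

theorem gW_eq (hM : CommonWrites M cv) {w : List A} {i : ℕ} (hi : i < w.length) {s : M.Q}
    (hs : IniM M (gW M cv w) cv w i s) {y : M.Q × (A ⊕ M.W) × Bool}
    (hy : y ∈ M.δ s (Sym.inp w[i])) : gW M cv w (i + 1) = Sym.ofW y.2.1 := by
  have hg := writes_gW hM w
  obtain ⟨c, h1, h2, h3, h4, h5, h6, h7⟩ := desc_reach hg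
    (rtg_mono (fun _ _ h1 => h1.2) hs)
  have h2' : c.pos = i + 1 := h2
  have h3' : c.st = s := h3
  have h8 : c.tape c.pos = Sym.inp w[i] := by
    rw [h6, h2']
    show symM M (gW M cv w) w (i + 1) (i + 1) = _
    rw [symM_inp w (by omega) (by omega), if_neg (lt_irrefl _)]
    rfl
  have h9 := hg c h1 (by omega) (by omega) (by
    rw [h7 c.pos (by omega) (by omega), h2']
    exact lt_irrefl _) y (by rw [h8, h3']; exact hy)
  rw [h9, h2']

theorem gW_default (hM : CommonWrites M cv) {w : List A} {i : ℕ} (hi : i < w.length)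
    (hno : ∀ s, IniM M (gW M cv w) cv w i s → M.δ s (Sym.inp w[i]) = ∅) :
    gW M cv w (i + 1) = Sym.inp w[i] := by
  have hg := writes_gW hM w
  unfold gW
  rw [dif_neg]
  · unfold Mach.initTape
    rw [if_neg (by omega)]
    simp [List.getElem?_eq_getElem hi]
  · rintro ⟨⟨c, y⟩, h1, h2, -, -, h3, h4⟩
    simp only at h1 h2 h3 h4
    obtain ⟨p, hd, h5⟩ := reach_desc hg h1
    obtain ⟨h6, h7, h8⟩ := path_stepJ h5
    obtain ⟨d1, d2, d3, d4, d5, d6⟩ := hd
    have h9 : ¬ (i + 1 < p.1) := by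
      rw [← d6 (i + 1) (by omega) (by omega)]
      exact h3
    have h10 : p.1 = i + 1 := by omega
    have e : p = (i + 1, i + 1, c.st) :=
      Prod.ext h10 (Prod.ext (by show p.2.1 = i + 1; omega) d2.symm)
    subst e
    have h11 := hno c.st h8
    have h12 : c.tape (i + 1) = Sym.inp w[i] := by
      rw [d5]
      show symM M (gW M cv w) w (i + 1) (i + 1) = _
      rw [symM_inp w (by omega) (by omega), if_neg (lt_irrefl _)]
      rfl
    rw [h12, h11] at h4
    exact h4

end Pool.Agent.P0036f5g
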