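import Pool.Agent.Lib.P0036f5w.Block
import Pool.Agent.Lib.P0036f5g.GWin
import Pool.Agent.Lib.P0036f5g.GDet

/-!
# The block program of a machine all of whose computations write the same symbols

The note of the cell `n + 1` contains the letter of the cell `n`, the symbol which the machine has
written there, and one bit; the bits of a block encode the transition table of the cells to the left
of the preceding block, and the set of the states in which these cells can be left for the first
time.
-/

set_option autoImplicit false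

namespace Pool.Agent.P0036f5g

open Pool.Agent.P0036f5v2 Relation Classical
open Pool.Agent.P0036f5w (mv mvf rtg_mono bl tbit0 pathT ER eval_pathT nd_pathT_le within_pathT
  ix_lt twoProg ph_twoProg)

variable {A : Type} (M : Mach A) (cv : Bool) (K : ℕ) (st : ℕ → M.Q) (ix : M.Q → ℕ)

/-- the notes -/
abbrev Note : Type := Option (A × Sym A M.W) × Bool

/-- what is seen on the tape -/
abbrev Seen : Type := Option (A × Note M)

/-- the move from the node `x` to the node `y` if the letter is `a` and the written symbol `s` -/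
def mvl (a : A) (s : Sym A M.W) (x y : ℕ × ℕ × M.Q) : Prop :=
  ∃ d, (if x.2.1 = x.1 then mv M x.2.2 (Sym.inp a) d y.2.2
      else mvf M cv x.2.2 (if x.2.1 < x.1 then s else Sym.inp a) d y.2.2) ∧
    y.2.1 = (if d = true then x.2.1 + 1 else x.2.1 - 1) ∧
    y.1 = if x.2.1 = x.1 then x.1 + 1 else x.1

/-- the move from the node `x` to the node `y` on the right end-marker -/
def mve (x y : ℕ × ℕ × M.Q) : Prop :=
  ∃ d, mv M x.2.2 Sym.rend d y.2.2 ∧ y.2.1 = (if d = true then x.2.1 + 1 else x.2.1 - 1) ∧
    y.1 = if x.2.1 = x.1 then x.1 + 1 else x.1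

/-- the bit at distance `d` -/
noncomputable def askb (d : ℕ) : DT (Seen M) :=
  .ask d fun v => .ret (decide (∃ a s, v = some (a, s) ∧ s.2 = true))

/-- edges of the window graph; `z` is the letter and the symbol of the last visited cell -/
noncomputable def edgeG (b0 cl : Bool) (L r : ℕ) (z : Option (A × Sym A M.W))
    (x y : ℕ × ℕ × M.Q) : DT (Seen M) :=
  if x.2.1 = 0 then
    if y.2.1 = 1 ∧ y.1 = x.1 then
      if b0 = true then .ret (decide (mv M x.2.2 Sym.lend true y.2.2))
      else askb M (r - (ix x.2.2 * K + ix y.2.2))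
    else .ret false
  else if x.2.1 ≤ L then
    if x.2.1 = r then .ret (decide (∃ a s, z = some (a, s) ∧ mvl M cv a s x y))
    else .ask (r - x.2.1) fun v => .ret (decide (∃ a a' s b, v = some (a, (some (a', s), b)) ∧
      mvl M cv a' s x y))
  else if x.2.1 = L + 1 ∧ cl = true then .ret (decide (mve M x y))
  else .ret false

/-- the node with number `u` -/
def nodeG (u : ℕ) : ℕ × ℕ × M.Q :=
  (u / K / (2 * bl K + 2), u / K % (2 * bl K + 2), st (u % K))

/-- the number of nodes -/
def nVG : ℕ := (2 * bl K + 2) * (2 * bl K + 2) * K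

/-- paths in the window graph -/
noncomputable def pathG (κ : ℕ) (b0 cl : Bool) (L r : ℕ) (z : Option (A × Sym A M.W))
    (x y : ℕ × ℕ × M.Q) : DT (Seen M) :=
  pathT (edgeG M cv K ix b0 cl L r z) (nodeG M K st) (nVG K) κ x y

/-- paths from the left end of the window to the node `y`, starting in a state in which the window
can be entered for the first time -/
noncomputable def fromT (κ : ℕ) (cl : Bool) (L r : ℕ) (z : Option (A × Sym A M.W))
    (y : ℕ × ℕ × M.Q) : DT (Seen M) :=
  if r < bl K then pathG M cv K st ix κ true cl L r z (1, 1, M.qI) y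
  else .orN (fun x => (askb M (r - (K * K + x))).and
    (pathG M cv K st ix κ false cl L r z (1, 1, st x) y)) K

/-- acceptance if the input ends in phase `r` -/
noncomputable def accT (κ r : ℕ) (z : Option (A × Sym A M.W)) : DT (Seen M) :=
  .orN (fun y => if st y ∈ M.F then fromT M cv K st ix κ true r r z (r + 2, r + 2, st y)
    else .ret false) K

/-- the bit of the note written in phase `r` -/
noncomputable def bitT (κ r : ℕ) (z : Option (A × Sym A M.W)) : DT (Seen M) :=
  if r < bl K then .ret (decide (tbit0 M K st r))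
  else if (r - bl K) / K < K then
    pathG M cv K st ix κ false false (bl K) r z (bl K + 1, bl K, st ((r - bl K) / K))
      (bl K + 1, bl K + 1, st ((r - bl K) % K))
  else fromT M cv K st ix κ false (bl K) r z (bl K + 1, bl K + 1, st ((r - bl K) % K))

/-- can the last visited cell be entered for the first time in the state number `x`? -/
noncomputable def iniT (κ r x : ℕ) : DT (Seen M) :=
  fromT M cv K st ix κ false (r - 1) r none (r, r, st x)

/-- the symbol written in the last visited cell, which has the letter `a`, if it can be entered in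
one of the states with numbers less than `m` -/
noncomputable def symT (κ r : ℕ) (a : A) : ℕ → DTo (Seen M) (Sym A M.W)
  | 0 => .ret (Sym.inp a)
  | m + 1 => if h : (M.δ (st m) (Sym.inp a)).Nonempty then
      .lift (iniT M cv K st ix κ r m) fun b =>
        if b = true then .ret (Sym.ofW h.choose.2.1) else symT κ r a m
    else symT κ r a m

/-- the program -/
noncomputable def gProg (κ : ℕ) : GProg A (Note M) where
  nxt := fun r => if r + 1 < 2 * bl K then r + 1 else bl K
  s0 := (none, decide (tbit0 M K st 0))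
  upd := fun r => .ask 1 fun v =>
    match v with
    | some (a, _) => (symT M cv K st ix κ r a K).bind fun s =>
        .lift (bitT M cv K st ix κ r (some (a, s))) fun b => .ret (.inl (some (a, s), b))
    | none => .ret (.inr false)
  acc := fun r => if r = 0 then .lift (accT M cv K st ix κ 0 none) fun b => .ret (.inr b)
    else .ask 1 fun v =>
      match v with
      | some (a, _) => (symT M cv K st ix κ r a K).bind fun s =>
          .lift (accT M cv K st ix κ r (some (a, s))) fun b => .ret (.inr b)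
      | none => .ret (.inr false)

/-- the property encoded by the bit number `b` at the boundary `i` -/
def tbitG (w : List A) (i b : ℕ) : Prop :=
  if b / K < K then TabM M (gW M cv w) cv w i (st (b / K)) (st (b % K))
  else IniM M (gW M cv w) cv w i (st (b % K))

/-- the note of the letter with index `i` -/
noncomputable def noteW (w : List A) (i : ℕ) : Note M :=
  (if i = 0 then none else (w[i - 1]?).map fun a => (a, gW M cv w i),
    decide (tbitG M cv K st w (bl K * (i / bl K)) (i % bl K)))

variable {M cv K st ix}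

theorem tbitG_zero (w : List A) (b : ℕ) : tbitG M cv K st w 0 b ↔ tbit0 M K st b := by
  unfold tbitG tbit0
  split_ifs
  · exact tabM_zero
  · exact iniM_zero

/-- the phase after `i` letters -/
theorem ph_gProg (κ : ℕ) (hK : 0 < K) (i : ℕ) :
    (gProg M cv K st ix κ).ph i = if i < bl K then i else bl K + i % bl K := by
  rw [← ph_twoProg (M := M) (st := st) (ix := ix) κ hK i]
  induction i with
  | zero => rfl
  | succ i ih =>
    rw [Prog.ph, GProg.ph, ih]
    rfl

theorem mvf_rend {q q' : M.Q} {d : Bool} : mvf M cv q Sym.rend d q' ↔ mv M q Sym.rend d q' :=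
  ⟨fun ⟨x, h, _⟩ => ⟨x, h⟩, fun ⟨x, h⟩ => ⟨x, h, fun _ _ h1 => absurd rfl h1⟩⟩

theorem nd_askb_le [Finite A] [Finite M.W] (d : ℕ) : (askb M d).nd ≤ 1 := by
  unfold askb DT.nd DT.asks
  simp [DT.asks]

theorem within_askb {n d : ℕ} (h1 : 1 ≤ d) (h2 : d ≤ n) : (askb M d).Within n :=
  ⟨h1, h2, fun _ => trivial⟩

theorem eval_askb {w : List A} {β : ℕ → Note M} {n d : ℕ} (h : n - d < w.length) :
    (askb M d).eval (GProg.view w β n) = (β (n - d)).2 := by
  have h1 : GProg.view w β n d = some (w[n - d], β (n - d)) := by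
    unfold GProg.view GProg.cellv
    rw [List.getElem?_eq_getElem h]
    rfl
  unfold askb
  simp only [DT.eval]
  rw [h1, Bool.eq_iff_iff, decide_eq_true_eq]
  constructor
  · rintro ⟨a, s, h2, h3⟩
    have h4 : β (n - d) = s := congrArg Prod.snd (Option.some.inj h2)
    rw [h4]
    exact h3
  · intro h2
    exact ⟨_, _, rfl, h2⟩

theorem nd_edgeG_le [Finite A] [Finite M.W] (b0 cl : Bool) (L r : ℕ)
    (z : Option (A × Sym A M.W)) (x y : ℕ × ℕ × M.Q) :
    (edgeG M cv K ix b0 cl L r z x y).nd ≤ 1 := by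
  unfold edgeG
  split_ifs
  · simp [DT.nd_ret]
  · exact nd_askb_le _
  · simp [DT.nd_ret]
  · simp [DT.nd_ret]
  · unfold DT.nd DT.asks
    simp [DT.asks]
  · simp [DT.nd_ret]
  · simp [DT.nd_ret]

theorem within_edgeG (hix : ∀ s, ix s < K) {b0 : Bool} (cl : Bool) {L r : ℕ} (hL : L ≤ r)
    (hb : b0 = false → K * K ≤ r) (z : Option (A × Sym A M.W)) (x y : ℕ × ℕ × M.Q) :
    (edgeG M cv K ix b0 cl L r z x y).Within r := by
  unfold edgeG
  split_ifs with h1 h2 h3 h4 h5 h6
  · trivial
  · have h6 := ix_lt hix x.2.2 y.2.2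
    have h7 := hb (by simpa using h3)
    exact within_askb (by omega) (by omega)
  · trivial
  · trivial
  · exact ⟨by omega, by omega, fun _ => trivial⟩
  · trivial
  · trivial

theorem eval_edgeG {w : List A} {g : ℕ → Sym A M.W} {β : ℕ → Note M} {n i L r : ℕ}
    {b0 cl : Bool} {z : Option (A × Sym A M.W)}
    (hix : ∀ s, ix s < K) (hn : n ≤ w.length)
    (hir : i + r = n) (hL : L ≤ r) (hcl : cl = true → i + L = w.length) (h0 : b0 = true → i = 0)
    (ht : b0 = false → K * K ≤ r ∧
      ∀ s s', (β (i + (ix s * K + ix s'))).2 = decide (TabM M g cv w i s s'))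
    (hβ : ∀ j, 1 ≤ j → j < n → (β j).1 = (w[j - 1]?).map fun a => (a, g j))
    (hz : L = r → 1 ≤ r → z = (w[n - 1]?).map fun a => (a, g n))
    (x y : ℕ × ℕ × M.Q) :
    (edgeG M cv K ix b0 cl L r z x y).eval (GProg.view w β n) = true ↔
      WJ M g cv w i (if cl = true then L + 1 else L) x y := by
  unfold edgeG WJ
  by_cases h1 : x.2.1 = 0
  · rw [if_pos h1]
    have hno : ¬ (1 ≤ x.2.1 ∧ x.2.1 ≤ (if cl = true then L + 1 else L) ∧
        ∃ d, mvM M g cv w (i + x.1) (i + x.2.1) x.2.2 d y.2.2 ∧
          y.2.1 = (if d = true then x.2.1 + 1 else x.2.1 - 1) ∧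
          y.1 = if x.2.1 = x.1 then x.1 + 1 else x.1) := by
      rintro ⟨h, -⟩
      omega
    rw [or_iff_left hno]
    by_cases h2 : y.2.1 = 1 ∧ y.1 = x.1
    · rw [if_pos h2]
      by_cases h3 : b0 = true
      · rw [if_pos h3, h0 h3, tabM_zero]
        simp [DT.eval, h1, h2]
      · rw [if_neg h3]
        obtain ⟨h4, h5⟩ := ht (by simpa using h3)
        have h6 := ix_lt hix x.2.2 y.2.2
        rw [eval_askb (by omega)]
        have e1 : n - (r - (ix x.2.2 * K + ix y.2.2)) = i + (ix x.2.2 * K + ix y.2.2) := by omega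
        rw [e1, h5]
        simp [h1, h2]
    · rw [if_neg h2]
      simp only [DT.eval, Bool.false_eq_true, false_iff]
      rintro ⟨-, h3, h4, -⟩
      exact h2 ⟨h3, h4⟩
  · rw [if_neg h1]
    have hno : ¬ (x.2.1 = 0 ∧ y.2.1 = 1 ∧ y.1 = x.1 ∧ TabM M g cv w i x.2.2 y.2.2) :=
      fun h => h1 h.1
    rw [or_iff_right hno]
    by_cases h2 : x.2.1 ≤ L
    · rw [if_pos h2]
      have h3 : x.2.1 ≤ (if cl = true then L + 1 else L) := by split_ifs <;> omega
      have h4 : 1 ≤ x.2.1 := by omega
      have h5 : i + x.2.1 - 1 < w.length := by omega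
      have h6 : ∀ d, mvM M g cv w (i + x.1) (i + x.2.1) x.2.2 d y.2.2 ↔
          (if x.2.1 = x.1 then mv M x.2.2 (Sym.inp w[i + x.2.1 - 1]) d y.2.2
            else mvf M cv x.2.2 (if x.2.1 < x.1 then g (i + x.2.1)
              else Sym.inp w[i + x.2.1 - 1]) d y.2.2) := by
        intro d
        unfold mvM
        rw [symM_inp w (by omega) (by omega)]
        by_cases h8 : x.2.1 = x.1
        · rw [if_pos h8, if_pos ⟨by omega, by omega, by omega⟩, if_neg (by omega)]
        · rw [if_neg h8, if_neg (by omega)]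
          by_cases h9 : x.2.1 < x.1
          · rw [if_pos h9, if_pos (by omega)]
          · rw [if_neg h9, if_neg (by omega)]
      have h10 : mvl M cv w[i + x.2.1 - 1] (g (i + x.2.1)) x y ↔
          (1 ≤ x.2.1 ∧ x.2.1 ≤ (if cl = true then L + 1 else L) ∧
            ∃ d, mvM M g cv w (i + x.1) (i + x.2.1) x.2.2 d y.2.2 ∧
              y.2.1 = (if d = true then x.2.1 + 1 else x.2.1 - 1) ∧
              y.1 = if x.2.1 = x.1 then x.1 + 1 else x.1) := by
        unfold mvl
        constructor
        · rintro ⟨d, k1, k2, k3⟩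
          exact ⟨h4, h3, d, (h6 d).2 k1, k2, k3⟩
        · rintro ⟨-, -, d, k1, k2, k3⟩
          exact ⟨d, (h6 d).1 k1, k2, k3⟩
      by_cases h7 : x.2.1 = r
      · rw [if_pos h7]
        have hz' := hz (by omega) (by omega)
        have e2 : n = i + x.2.1 := by rw [h7]; exact hir.symm
        have e1 : n - 1 = i + x.2.1 - 1 := by rw [e2]
        rw [e1, List.getElem?_eq_getElem h5, e2] at hz'
        simp only [DT.eval, decide_eq_true_eq]
        rw [hz', ← h10]
        simp only [Option.map_some, Option.some.injEq, Prod.mk.injEq]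
        constructor
        · rintro ⟨a, s, ⟨rfl, rfl⟩, h⟩
          exact h
        · intro h
          exact ⟨_, _, ⟨rfl, rfl⟩, h⟩
      · rw [if_neg h7]
        have h8 : GProg.view w β n (r - x.2.1) =
            some (w[i + x.2.1]'(by omega), β (i + x.2.1)) := by
          have e1 : n - (r - x.2.1) = i + x.2.1 := by omega
          unfold GProg.view GProg.cellv
          rw [e1, List.getElem?_eq_getElem (by omega)]
          rfl
        have h9 : (β (i + x.2.1)).1 = some (w[i + x.2.1 - 1], g (i + x.2.1)) := by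
          rw [hβ _ (by omega) (by omega), List.getElem?_eq_getElem h5]
          rfl
        simp only [DT.eval, decide_eq_true_eq]
        rw [h8, ← h10]
        constructor
        · rintro ⟨a, a', s, b, k1, k2⟩
          have k3 := Option.some.inj k1
          have k4 : β (i + x.2.1) = (some (a', s), b) := congrArg Prod.snd k3
          rw [k4] at h9
          have k5 := Option.some.inj h9
          have k6 : a' = w[i + x.2.1 - 1] := congrArg Prod.fst k5
          have k7 : s = g (i + x.2.1) := congrArg Prod.snd k5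
          rw [← k6, ← k7]
          exact k2
        · intro k
          have k1 : β (i + x.2.1) = (some (w[i + x.2.1 - 1], g (i + x.2.1)),
              (β (i + x.2.1)).2) := Prod.ext h9 rfl
          refine ⟨w[i + x.2.1]'(by omega), w[i + x.2.1 - 1], g (i + x.2.1),
            (β (i + x.2.1)).2, ?_, k⟩
          exact congrArg (fun t => some (w[i + x.2.1]'(by omega), t)) k1
    · rw [if_neg h2]
      by_cases h3 : x.2.1 = L + 1 ∧ cl = true
      · rw [if_pos h3]
        have h4 : ∀ d, mvM M g cv w (i + x.1) (i + x.2.1) x.2.2 d y.2.2 ↔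
            mv M x.2.2 Sym.rend d y.2.2 := by
          intro d
          have h5 := hcl h3.2
          have h6 : symM M g w (i + x.1) (i + x.2.1) = Sym.rend := by
            unfold symM
            rw [if_neg (by omega), List.getElem?_eq_none (by omega)]
          unfold mvM
          rw [if_neg (by omega), h6, mvf_rend]
        simp only [DT.eval, decide_eq_true_eq, h3.2, if_true]
        unfold mve
        constructor
        · rintro ⟨d, h5, h6, h7⟩
          exact ⟨by omega, by omega, d, (h4 d).2 h5, h6, h7⟩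
        · rintro ⟨-, -, d, h5, h6, h7⟩
          exact ⟨d, (h4 d).1 h5, h6, h7⟩
      · rw [if_neg h3]
        simp only [DT.eval, Bool.false_eq_true, false_iff]
        rintro ⟨-, h5, -⟩
        apply h3
        by_cases h6 : cl = true
        · rw [if_pos h6] at h5
          exact ⟨by omega, h6⟩
        · rw [if_neg h6] at h5
          omega

theorem wj_le {g : ℕ → Sym A M.W} {w : List A} {i L : ℕ} {x y : ℕ × ℕ × M.Q}
    (hx : 1 ≤ x.1 ∧ x.1 ≤ L + 1 ∧ x.2.1 ≤ x.1)
    (h : ReflTransGen (WJ M g cv w i L) x y) : 1 ≤ y.1 ∧ y.1 ≤ L + 1 ∧ y.2.1 ≤ y.1 := by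
  induction h with
  | refl => exact hx
  | @tail y z _ hyz ih =>
    obtain ⟨i1, i2, i3⟩ := ih
    rcases hyz with ⟨h1, h2, h0, h3⟩ | ⟨h1, h2, d, h3, h4, h5⟩
    · exact ⟨by omega, by omega, by omega⟩
    · rw [h4, h5]
      split_ifs <;> refine ⟨?_, ?_, ?_⟩ <;> omega

/-- correctness of the path trees -/
theorem eval_pathG {w : List A} {g : ℕ → Sym A M.W} {β : ℕ → Note M} {n i L r : ℕ}
    {b0 cl : Bool} {z : Option (A × Sym A M.W)}
    (hix : ∀ s, ix s < K) (hst : ∀ s, st (ix s) = s) (hn : n ≤ w.length)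
    (hir : i + r = n) (hL : L ≤ r) (hcl : cl = true → i + L = w.length) (h0 : b0 = true → i = 0)
    (ht : b0 = false → K * K ≤ r ∧
      ∀ s s', (β (i + (ix s * K + ix s'))).2 = decide (TabM M g cv w i s s'))
    (hβ : ∀ j, 1 ≤ j → j < n → (β j).1 = (w[j - 1]?).map fun a => (a, g j))
    (hz : L = r → 1 ≤ r → z = (w[n - 1]?).map fun a => (a, g n))
    (hr : L < 2 * bl K) {κ : ℕ} (hκ : nVG K ≤ 2 ^ κ) {x y : ℕ × ℕ × M.Q}
    (hx : 1 ≤ x.1 ∧ x.1 ≤ L + 1 ∧ x.2.1 ≤ x.1) :
    (pathG M cv K st ix κ b0 cl L r z x y).eval (GProg.view w β n) = true ↔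
      ReflTransGen (WJ M g cv w i (if cl = true then L + 1 else L)) x y := by
  have hER : ER (edgeG M cv K ix b0 cl L r z) (GProg.view w β n) =
      WJ M g cv w i (if cl = true then L + 1 else L) := by
    funext x y
    exact propext (eval_edgeG hix hn hir hL hcl h0 ht hβ hz x y)
  unfold pathG
  rw [eval_pathT (V := nVG K) (κ := κ) (v := GProg.view w β n) _ _ ?_ hκ, hER]
  intro u hu
  rw [hER] at hu
  have h1 : 1 ≤ u.1 ∧ u.1 ≤ (if cl = true then L + 1 else L) + 1 ∧ u.2.1 ≤ u.1 := by
    refine wj_le ?_ hu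
    refine ⟨hx.1, ?_, hx.2.2⟩
    have := hx.2.1
    split_ifs <;> omega
  obtain ⟨i1, i2, i3⟩ := h1
  have h2 : u.1 < 2 * bl K + 2 := by
    split_ifs at i2 <;> omega
  have h2' : u.2.1 < 2 * bl K + 2 := by omega
  have h3 := hix u.2.2
  refine ⟨(u.1 * (2 * bl K + 2) + u.2.1) * K + ix u.2.2, ?_, ?_⟩
  · unfold nVG
    have h4 : u.1 * (2 * bl K + 2) + u.2.1 < (2 * bl K + 2) * (2 * bl K + 2) := by
      calc u.1 * (2 * bl K + 2) + u.2.1 < u.1 * (2 * bl K + 2) + (2 * bl K + 2) := by omega
        _ = (u.1 + 1) * (2 * bl K + 2) := by ring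
        _ ≤ (2 * bl K + 2) * (2 * bl K + 2) := Nat.mul_le_mul_right _ h2
    calc (u.1 * (2 * bl K + 2) + u.2.1) * K + ix u.2.2 <
          (u.1 * (2 * bl K + 2) + u.2.1) * K + K := by omega
      _ = (u.1 * (2 * bl K + 2) + u.2.1 + 1) * K := by ring
      _ ≤ (2 * bl K + 2) * (2 * bl K + 2) * K := Nat.mul_le_mul_right _ h4
  · unfold nodeG
    have h4 : ((u.1 * (2 * bl K + 2) + u.2.1) * K + ix u.2.2) / K =
        u.1 * (2 * bl K + 2) + u.2.1 := by
      rw [Nat.mul_comm _ K, Nat.mul_add_div (by omega), Nat.div_eq_of_lt h3, Nat.add_zero]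
    have h5 : ((u.1 * (2 * bl K + 2) + u.2.1) * K + ix u.2.2) % K = ix u.2.2 := by
      rw [Nat.mul_comm _ K, Nat.mul_add_mod, Nat.mod_eq_of_lt h3]
    have h6 : (u.1 * (2 * bl K + 2) + u.2.1) / (2 * bl K + 2) = u.1 := by
      rw [Nat.mul_comm u.1, Nat.mul_add_div (by omega), Nat.div_eq_of_lt h2', Nat.add_zero]
    have h7 : (u.1 * (2 * bl K + 2) + u.2.1) % (2 * bl K + 2) = u.2.1 := by
      rw [Nat.mul_comm u.1, Nat.mul_add_mod, Nat.mod_eq_of_lt h2']
    rw [h4, h5, h6, h7, hst]

theorem within_pathG (hix : ∀ s, ix s < K) (κ : ℕ) {b0 : Bool} (cl : Bool) {L r : ℕ} (hL : L ≤ r)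
    (hb : b0 = false → K * K ≤ r) (z : Option (A × Sym A M.W)) (x y : ℕ × ℕ × M.Q) :
    (pathG M cv K st ix κ b0 cl L r z x y).Within r :=
  within_pathT _ _ _ (fun x y => within_edgeG hix cl hL hb z x y) κ x y

theorem nd_pathG_le [Finite A] [Finite M.W] (κ : ℕ) (b0 cl : Bool) (L r : ℕ)
    (z : Option (A × Sym A M.W)) (x y : ℕ × ℕ × M.Q) :
    (pathG M cv K st ix κ b0 cl L r z x y).nd ≤ (2 * nVG K) ^ κ := by
  have : Finite (Sym A M.W) := inferInstance
  have := nd_pathT_le (edgeG M cv K ix b0 cl L r z) (nodeG M K st) (nVG K) (c := 1)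
    (fun x y => nd_edgeG_le b0 cl L r z x y) κ x y
  rwa [Nat.mul_one] at this

end Pool.Agent.P0036f5g
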