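import Pool.Agent.Lib.P0036f5g.GLang
import Pool.Agent.Lib.P0036f5w.MFin

/-!
# Machines all of whose computations write the same symbols: the quasi-polynomial bound
-/

set_option autoImplicit false

namespace Pool.Agent.P0036f5g

open Pool.Agent.P0036f5v2 Classical Relation
open Pool.Agent.P0036f5w (bl LetterDet costsFor num_powM num_blM)

theorem num_T {K X P V a σ : ℕ} (hK : K ≤ X) (hX : 1 ≤ X) (hP : 1 ≤ P) (hV : V ≤ P)
    (ha : a ≤ X) (hσ : σ ≤ 4 * X) :
    2 * (1 + (a * ((a * σ + 1) * 2) + 1) * (K * (K * (1 + V)) + σ * (K * (K * (1 + V))))) ≤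
      222 * (X ^ 6 * P) := by
  have e1 : K * (K * (1 + V)) ≤ 2 * (X ^ 2 * P) := by
    calc K * (K * (1 + V)) ≤ X * (X * (2 * P)) :=
          Nat.mul_le_mul hK (Nat.mul_le_mul hK (by omega))
      _ = 2 * (X ^ 2 * P) := by ring
  generalize K * (K * (1 + V)) = E at e1 ⊢
  have e2 : E + σ * E ≤ 10 * (X ^ 3 * P) := by
    calc E + σ * E = (1 + σ) * E := by ring
      _ ≤ (5 * X) * (2 * (X ^ 2 * P)) := Nat.mul_le_mul (by omega) e1
      _ = 10 * (X ^ 3 * P) := by ring
  generalize E + σ * E = F at e2 ⊢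
  have e3 : a * σ + 1 ≤ 5 * (X * X) := by
    have h1 : a * σ ≤ 4 * (X * X) := by
      calc a * σ ≤ X * (4 * X) := Nat.mul_le_mul ha hσ
        _ = 4 * (X * X) := by ring
    have h2 : 1 ≤ X * X := Nat.mul_pos hX hX
    omega
  generalize a * σ + 1 = G at e3 ⊢
  have e4 : a * (G * 2) + 1 ≤ 11 * X ^ 3 := by
    have h1 : a * (G * 2) ≤ 10 * X ^ 3 := by
      calc a * (G * 2) ≤ X * ((5 * (X * X)) * 2) :=
            Nat.mul_le_mul ha (Nat.mul_le_mul_right _ e3)
        _ = 10 * X ^ 3 := by ring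
    have h2 : 1 ≤ X ^ 3 := Nat.one_le_pow _ _ hX
    omega
  generalize a * (G * 2) + 1 = H at e4 ⊢
  have e5 : H * F ≤ 110 * (X ^ 6 * P) := by
    calc H * F ≤ (11 * X ^ 3) * (10 * (X ^ 3 * P)) := Nat.mul_le_mul e4 e2
      _ = 110 * (X ^ 6 * P) := by ring
  have e6 : 1 ≤ X ^ 6 * P := Nat.mul_pos (pow_pos hX _) hP
  omega

theorem num_sizeG {B X P a σ s T : ℕ} (hB : B ≤ 4 * (X * X)) (hX : 1 ≤ X) (hP : 1 ≤ P)
    (ha : a ≤ X) (hσ : σ ≤ 4 * X) (hs : s = (a * σ + 1) * 2) (hT : T ≤ 222 * (X ^ 6 * P)) :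
    (B * s + B * ((s + 2 + B * T) * (B + 3)) + 1) * (5 * a * s + 5 * a + 17) +
      (a * s + 2 * a + 4) ≤ 2097152 * (X ^ 15 * P) := by
  have hXX : 1 ≤ X * X := Nat.mul_pos hX hX
  have e1 : s ≤ 10 * (X * X) := by
    have h1 : a * σ ≤ 4 * (X * X) := by
      calc a * σ ≤ X * (4 * X) := Nat.mul_le_mul ha hσ
        _ = 4 * (X * X) := by ring
    omega
  clear hs
  have p8 : X * X ≤ X ^ 8 * P := by
    calc X * X = (X * X) * 1 := by ring
      _ ≤ (X * X) * (X ^ 6 * P) := Nat.mul_le_mul_left _ (Nat.mul_pos (pow_pos hX _) hP)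
      _ = X ^ 8 * P := by ring
  have e2 : B * T ≤ 888 * (X ^ 8 * P) := by
    calc B * T ≤ (4 * (X * X)) * (222 * (X ^ 6 * P)) := Nat.mul_le_mul hB hT
      _ = 888 * (X ^ 8 * P) := by ring
  have e3 : s + 2 + B * T ≤ 900 * (X ^ 8 * P) := by omega
  have e4 : B + 3 ≤ 7 * (X * X) := by omega
  have e5 : B * ((s + 2 + B * T) * (B + 3)) ≤ 25200 * (X ^ 12 * P) := by
    calc B * ((s + 2 + B * T) * (B + 3)) ≤
          (4 * (X * X)) * ((900 * (X ^ 8 * P)) * (7 * (X * X))) :=
          Nat.mul_le_mul hB (Nat.mul_le_mul e3 e4)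
      _ = 25200 * (X ^ 12 * P) := by ring
  have e6 : B * s ≤ 40 * (X ^ 12 * P) := by
    calc B * s ≤ (4 * (X * X)) * (10 * (X * X)) := Nat.mul_le_mul hB e1
      _ = 40 * (X ^ 4 * 1) := by ring
      _ ≤ 40 * (X ^ 4 * (X ^ 8 * P)) := Nat.mul_le_mul_left _ (Nat.mul_le_mul_left _
          (Nat.mul_pos (pow_pos hX _) hP))
      _ = 40 * (X ^ 12 * P) := by ring
  have p12 : 1 ≤ X ^ 12 * P := Nat.mul_pos (pow_pos hX _) hP
  have e7 : B * s + B * ((s + 2 + B * T) * (B + 3)) + 1 ≤ 25241 * (X ^ 12 * P) := by omega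
  have p3 : 1 ≤ X ^ 3 := Nat.one_le_pow _ _ hX
  have p3' : X ≤ X ^ 3 := by
    calc X = X * 1 := by ring
      _ ≤ X * (X * X) := Nat.mul_le_mul_left _ hXX
      _ = X ^ 3 := by ring
  have e8 : a * s ≤ 10 * X ^ 3 := by
    calc a * s ≤ X * (10 * (X * X)) := Nat.mul_le_mul ha e1
      _ = 10 * X ^ 3 := by ring
  have e9 : 5 * a * s + 5 * a + 17 ≤ 72 * X ^ 3 := by
    have : 5 * a * s = 5 * (a * s) := by ring
    omega
  have e10 : a * s + 2 * a + 4 ≤ 16 * X ^ 3 := by omega
  have p15 : X ^ 3 ≤ X ^ 15 * P := by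
    calc X ^ 3 = X ^ 3 * 1 := by ring
      _ ≤ X ^ 3 * (X ^ 12 * P) := Nat.mul_le_mul_left _ p12
      _ = X ^ 15 * P := by ring
  calc _ ≤ (25241 * (X ^ 12 * P)) * (72 * X ^ 3) + 16 * X ^ 3 :=
        Nat.add_le_add (Nat.mul_le_mul e7 e9) e10
    _ ≤ (25241 * (X ^ 12 * P)) * (72 * X ^ 3) + 16 * (X ^ 15 * P) :=
        Nat.add_le_add_left (Nat.mul_le_mul_left _ p15) _
    _ = 1817368 * (X ^ 15 * P) := by ring
    _ ≤ 2097152 * (X ^ 15 * P) := Nat.mul_le_mul_right _ (by norm_num)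

theorem num_finalG (l : ℕ) : 2097152 * ((2 ^ l) ^ 15 * 2 ^ ((5 * l + 7) ^ 2)) =
    2 ^ (25 * l ^ 2 + 85 * l + 70) := by
  rw [show (2097152 : ℕ) = 2 ^ 21 by norm_num, ← pow_mul, ← pow_add, ← pow_add]
  congr 1
  ring

/-- Determinisation of a machine with common writes: the size in terms of the number of states. -/
theorem exists_det_auxG {A : Type} [Finite A] (M : Mach A) [Finite M.Q] [Finite M.W] (cv : Bool)
    (hM : CommonWrites M cv) (K κ T : ℕ) (hKe : Nat.card M.Q = K) (hκ : nVG K ≤ 2 ^ κ)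
    (hT : 2 * (1 + Nat.card (Seen M) * (K * (K * (1 + (2 * nVG K) ^ κ)) +
        Nat.card (Sym A M.W) * (K * (K * (1 + (2 * nVG K) ^ κ))))) ≤ T) :
    ∃ D : LA A, D.toMach.Det ∧ (∀ cv', D.toMach.lang cv' = M.lang cv) ∧
      D.toMach.size ≤ (2 * bl K * Nat.card (Note M) + 2 * bl K *
        ((Nat.card (Note M) + 2 + 2 * bl K * T) * (2 * bl K + 3)) + 1) *
        (5 * Nat.card A * Nat.card (Note M) + 5 * Nat.card A + 17) +
          (Nat.card A * Nat.card (Note M) + 2 * Nat.card A + 4) := by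
  have hK : 0 < K := by
    rw [← hKe]
    exact Nat.card_pos_iff.2 ⟨⟨M.qI⟩, inferInstance⟩
  let e : M.Q ≃ Fin K := (Finite.equivFin _).trans (finCongr hKe)
  let st : ℕ → M.Q := fun x => if h : x < K then e.symm ⟨x, h⟩ else M.qI
  let ix : M.Q → ℕ := fun s => (e s).1
  have hix : ∀ s, ix s < K := fun s => (e s).2
  have hst : ∀ s, st (ix s) = s := by
    intro s
    simp [st, ix]
  have hb0 : 0 < 2 * bl K := by unfold bl; omega
  obtain ⟨D, hD, hL, hs⟩ := exists_det_of_gprog (gProg M cv K st ix κ) (2 * bl K) (2 * bl K)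
    T hb0
    (fun r hr => by
      show (if r + 1 < 2 * bl K then r + 1 else bl K) < 2 * bl K
      split_ifs with h
      · exact h
      · omega)
    (fun r hr => within_upd hix κ r (by omega) (by omega))
    (fun r hr => within_acc hix κ r (by omega))
    (fun r _ => by
      have h1 := nd_upd_le (M := M) (cv := cv) (st := st) (ix := ix) hK κ r
      have h2 := nd_acc_le (M := M) (cv := cv) (st := st) (ix := ix) hK κ r
      omega)
  exact ⟨D, hD, fun cv' => by rw [hL cv', gProg_lang hM cv' hK hix hst hκ], hs⟩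

/-- Determinisation of a machine with common writes and at most `2 ^ l` states, letters and work
symbols. -/
theorem exists_det_of_common {A : Type} [Finite A] (M : Mach A) [Finite M.Q] [Finite M.W]
    (cv : Bool) (hM : CommonWrites M cv)
    (l : ℕ) (hl : Nat.card M.Q ≤ 2 ^ l) (ha : Nat.card A ≤ 2 ^ l) (hw : Nat.card M.W ≤ 2 ^ l) :
    ∃ D : LA A, D.toMach.Det ∧ (∀ cv', D.toMach.lang cv' = M.lang cv) ∧
      D.toMach.size ≤ 2 ^ (25 * l ^ 2 + 85 * l + 70) := by
  have hX1 : 1 ≤ 2 ^ l := Nat.one_le_two_pow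
  have hV : nVG (Nat.card M.Q) ≤ 36 * (2 ^ l) ^ 5 := (num_blM hl hX1).2
  have hB := (num_blM hl hX1).1
  obtain ⟨hκ, hpow⟩ := num_powM hV
  have hP1 : 1 ≤ 2 ^ ((5 * l + 7) ^ 2) := Nat.one_le_two_pow
  have hσe := card_sym A M.W
  have hσ : Nat.card (Sym A M.W) ≤ 4 * 2 ^ l := by omega
  have hs : Nat.card (Note M) = (Nat.card A * Nat.card (Sym A M.W) + 1) * 2 := by
    show Nat.card (Option (A × Sym A M.W) × Bool) = _
    rw [Nat.card_prod, Finite.card_option, Nat.card_prod]
    simp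
  have hc : Nat.card (Seen M) = Nat.card A * ((Nat.card A * Nat.card (Sym A M.W) + 1) * 2) + 1 := by
    show Nat.card (Option (A × Note M)) = _
    rw [Finite.card_option, Nat.card_prod, hs]
  obtain ⟨D, hD, hL, hsz⟩ := exists_det_auxG M cv hM (Nat.card M.Q) (5 * l + 7)
    (222 * ((2 ^ l) ^ 6 * 2 ^ ((5 * l + 7) ^ 2))) rfl hκ (by
      rw [hc]
      exact num_T hl hX1 hP1 hpow ha hσ)
  refine ⟨D, hD, hL, hsz.trans ?_⟩
  rw [← num_finalG]
  exact num_sizeG hB hX1 hP1 ha hσ hs le_rfl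

/-- A machine of size at most `n` with common writes has an equivalent deterministic 1-limited
automaton of size at most `n ^ (25 log₂ n + 225)`. -/
theorem upper_common {A : Type} [Finite A] (M : LA A) (cv : Bool) (hM : CommonWrites M.toMach cv)
    (n : ℕ) (hn : 4 ≤ n) (hs : M.toMach.size ≤ n) :
    ∃ D : LA A, D.toMach.Det ∧ (∀ cv', D.toMach.lang cv' = M.toMach.lang cv) ∧
      D.toMach.size ≤ n ^ (25 * Nat.log 2 n + 225) := by
  have fQ := M.finQ
  have fW := M.finW
  have hc := card_sym A M.W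
  have hsize : Nat.card M.Q + Nat.card A + Nat.card M.W ≤ n := by
    refine le_trans ?_ hs
    unfold Mach.size
    omega
  set m := Nat.log 2 n with hm
  have h1 : n < 2 ^ (m + 1) := Nat.lt_pow_succ_log_self (by norm_num) n
  have h2 : 2 ^ m ≤ n := Nat.pow_log_le_self 2 (by omega)
  have h3 : 2 ≤ m := by
    rw [hm]
    exact (Nat.le_log_iff_pow_le (by norm_num) (by omega)).2 (by omega)
  obtain ⟨D, hD, hL, hsz⟩ := exists_det_of_common M.toMach cv hM (m + 1) (by omega) (by omega)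
    (by omega)
  refine ⟨D, hD, hL, hsz.trans ?_⟩
  calc 2 ^ (25 * (m + 1) ^ 2 + 85 * (m + 1) + 70) ≤ 2 ^ (m * (25 * m + 225)) := by
        refine Nat.pow_le_pow_right (by norm_num) ?_
        nlinarith
    _ = (2 ^ m) ^ (25 * m + 225) := by rw [pow_mul]
    _ ≤ n ^ (25 * m + 225) := Nat.pow_le_pow_left h2 _

theorem costsCommon_le {cv : Bool} {n s : ℕ} (hn : 4 ≤ n)
    (h : s ∈ costsFor (fun _ M => CommonWrites M cv) cv n) : s ≤ n ^ (25 * Nat.log 2 n + 225) := by
  obtain ⟨A, fA, M, hM, hs, hl⟩ := h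
  obtain ⟨D, hD, hL, hsz⟩ := upper_common M cv hM n hn hs
  exact (hl.2 ⟨D, hD, hL cv, rfl⟩).trans hsz

/-- frozen cells do not change -/
theorem frozen {A : Type} {M : Mach A} {cv : Bool} {m : ℕ} {c c' : M.Cfg}
    (h : ReflTransGen (M.Step cv m) c c') {x : ℕ} (hx : x ∈ c.seen) :
    x ∈ c'.seen ∧ c'.tape x = c.tape x := by
  induction h with
  | refl => exact ⟨hx, rfl⟩
  | @tail b c' _ h2 ih =>
    obtain ⟨h3, h4⟩ := ih
    obtain ⟨-, y, d, -, -, -, h5, h6, h7⟩ := h2
    refine ⟨by rw [h7]; exact Set.mem_insert_of_mem _ h3, ?_⟩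
    by_cases h8 : 1 ≤ b.pos ∧ b.pos ≤ m ∧ b.pos ∉ b.seen
    · rw [h5 h8, Function.update_of_ne, h4]
      intro h9
      rw [h9] at h3
      exact h8.2.2 h3
    · rw [(h6 h8).1, h4]

/-- deterministic machines have common writes -/
theorem common_of_det {A : Type} (M : Mach A) (hM : M.Det) (cv : Bool) : CommonWrites M cv := by
  intro w c c' hc hc' x hx hx'
  have hu : Relator.RightUnique (M.Step cv w.length) :=
    fun a b c h₁ h₂ => Mach.step_unique hM h₁ h₂
  rcases ReflTransGen.total_of_right_unique hu hc hc' with h | h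
  · exact (frozen h hx).2.symm
  · exact (frozen h hx').2

/-- machines whose written symbols depend only on the letter have common writes -/
theorem common_of_letterDet {A : Type} (M : Mach A) (hM : LetterDet M) (cv : Bool) :
    CommonWrites M cv := by
  obtain ⟨f, hf⟩ := hM
  have key : ∀ (w : List A) (c : M.Cfg), Reach M cv w c →
      (∀ x, x ∉ c.seen → c.tape x = M.initTape w x) ∧
      (∀ x ∈ c.seen, c.tape x = if h : 1 ≤ x ∧ x ≤ w.length then
        Sym.ofW (f (w[x - 1]'(by omega))) else M.initTape w x) := by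
    intro w c hc
    induction hc with
    | refl => exact ⟨fun _ _ => rfl, fun x hx => absurd hx (Set.notMem_empty x)⟩
    | @tail b c _ h2 ih =>
      obtain ⟨i1, i2⟩ := ih
      obtain ⟨-, y, d, h3, -, -, h5, h6, h7⟩ := h2
      by_cases h8 : 1 ≤ b.pos ∧ b.pos ≤ w.length ∧ b.pos ∉ b.seen
      · have h9 : b.tape b.pos = Sym.inp (w[b.pos - 1]'(by omega)) := by
          rw [i1 _ h8.2.2]
          unfold Mach.initTape
          rw [if_neg (by omega), List.getElem?_eq_getElem (by omega)]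
        rw [h9] at h3
        have h10 : y = f (w[b.pos - 1]'(by omega)) := hf _ _ _ h3
        refine ⟨fun x hx => ?_, fun x hx => ?_⟩
        · rw [h7] at hx
          rw [h5 h8, Function.update_of_ne]
          · exact i1 x fun h => hx (Set.mem_insert_of_mem _ h)
          · intro h
            rw [h] at hx
            exact hx (Set.mem_insert _ _)
        · rw [h7] at hx
          rw [h5 h8]
          by_cases hxb : x = b.pos
          · subst hxb
            rw [Function.update_self, dif_pos ⟨h8.1, h8.2.1⟩, h10]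
          · rw [Function.update_of_ne hxb]
            rcases hx with hx | hx
            · exact absurd hx hxb
            · exact i2 x hx
      · rw [(h6 h8).1, h7]
        refine ⟨fun x hx => i1 x fun h => hx (Set.mem_insert_of_mem _ h), fun x hx => ?_⟩
        rcases hx with hx | hx
        · by_cases hxs : x ∈ b.seen
          · exact i2 x hxs
          · subst hx
            rw [i1 _ hxs, dif_neg]
            rintro ⟨h9, h10⟩
            exact h8 ⟨h9, h10, hxs⟩
        · exact i2 x hx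
  intro w c c' hc hc' x hx hx'
  rw [(key w c hc).2 x hx, (key w c' hc').2 x hx']

theorem main_common (cv : Bool) (n : ℕ) (hn : 4 ≤ n) :
    ∃ d, IsGreatest (costsFor (fun _ M => CommonWrites M cv) cv n) d ∧
      d ≤ n ^ (25 * Nat.log 2 n + 225) := by
  have hbdd : BddAbove (costsFor (fun _ M => CommonWrites M cv) cv n) :=
    ⟨_, fun s hs => costsCommon_le hn hs⟩
  have hne : (costsFor (fun _ M => CommonWrites M cv) cv n).Nonempty := by
    let M : LA Empty := ⟨⟨Unit, Empty, fun _ _ => ∅, (), ∅⟩, inferInstance, inferInstance⟩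
    have hM : M.toMach.size ≤ n := by
      have h1 : Nat.card M.toMach.Q = 1 := Nat.card_unique (α := Unit)
      have h2 : Nat.card (Sym Empty M.toMach.W) = 2 := by
        have := card_sym Empty Empty
        simpa using this
      have h3 : Nat.card {t : (M.toMach.Q × Sym Empty M.toMach.W) ×
          (M.toMach.Q × (Empty ⊕ M.toMach.W) × Bool) // t.2 ∈ M.toMach.δ t.1.1 t.1.2} = 0 := by
        have : IsEmpty {t : (M.toMach.Q × Sym Empty M.toMach.W) ×
          (M.toMach.Q × (Empty ⊕ M.toMach.W) × Bool) // t.2 ∈ M.toMach.δ t.1.1 t.1.2} :=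
          ⟨fun t => t.2⟩
        exact Nat.card_of_isEmpty
      have h4 : M.toMach.F.ncard = 0 := Set.ncard_empty _
      unfold Mach.size
      rw [h1, h2, h3, h4]
      simp
      omega
    have hM2 : CommonWrites M.toMach cv :=
      common_of_letterDet _ ⟨fun a => a.elim, fun _ a => a.elim⟩ cv
    have hne : {t | ∃ D : LA Empty, D.toMach.Det ∧ D.toMach.lang cv = M.toMach.lang cv ∧
        D.toMach.size = t}.Nonempty := by
      obtain ⟨D, hD, hL, _⟩ := upper_common M cv hM2 n hn hM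
      exact ⟨_, D, hD, hL cv, rfl⟩
    exact ⟨sInf _, Empty, inferInstance, M, hM2, hM, Nat.sInf_mem hne, fun t ht => Nat.sInf_le ht⟩
  have hmem := Nat.sSup_mem hne hbdd
  exact ⟨sSup _, ⟨hmem, fun s hs => le_csSup hbdd hs⟩, costsCommon_le hn hmem⟩

end Pool.Agent.P0036f5g
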