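import Pool.Agent.Lib.P0036f5g.GBlock

/-!
# The language of the program
-/

set_option autoImplicit false

namespace Pool.Agent.P0036f5g

open Pool.Agent.P0036f5v2 Relation Classical
open Pool.Agent.P0036f5w (mv mvf rtg_mono bl tbit0 ix_lt)

variable {A : Type} {M : Mach A} {cv : Bool} {K : ℕ} {st : ℕ → M.Q} {ix : M.Q → ℕ}

theorem within_fromT (hix : ∀ s, ix s < K) (κ : ℕ) (cl : Bool) {L r : ℕ} (hL : L ≤ r)
    (z : Option (A × Sym A M.W)) (y : ℕ × ℕ × M.Q) :
    (fromT M cv K st ix κ cl L r z y).Within r := by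
  unfold fromT
  split_ifs with h
  · exact within_pathG hix κ cl hL (fun h => by simp at h) z _ _
  · refine DT.within_orN _ _ fun x hx => DT.within_and ?_ ?_
    · unfold bl at h
      exact within_askb (by omega) (by omega)
    · exact within_pathG hix κ cl hL (fun _ => by unfold bl at h; omega) z _ _

theorem within_accT (hix : ∀ s, ix s < K) (κ r : ℕ) (z : Option (A × Sym A M.W)) :
    (accT M cv K st ix κ r z).Within r := by
  refine DT.within_orN _ _ fun y _ => ?_
  split_ifs
  · exact within_fromT hix κ true le_rfl z _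
  · trivial

theorem within_bitT (hix : ∀ s, ix s < K) (κ r : ℕ) (z : Option (A × Sym A M.W)) :
    (bitT M cv K st ix κ r z).Within r := by
  unfold bitT
  split_ifs with h h1
  · trivial
  · exact within_pathG hix κ false (by omega) (fun _ => by unfold bl at h; omega) z _ _
  · exact within_fromT hix κ false (by omega) z _

theorem within_symT (hix : ∀ s, ix s < K) (κ r : ℕ) (a : A) (m : ℕ) :
    (symT M cv K st ix κ r a m).Within r := by
  induction m with
  | zero => trivial
  | succ m ih =>
    rw [symT]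
    split_ifs with h
    · refine DTo.within_lift (within_fromT hix κ false (by omega) none _) fun b => ?_
      split_ifs
      · trivial
      · exact ih
    · exact ih

theorem within_upd (hix : ∀ s, ix s < K) (κ r : ℕ) {N : ℕ} (h1 : 1 ≤ N) (hr : r ≤ N) :
    ((gProg M cv K st ix κ).upd r).Within N := by
  refine ⟨le_rfl, h1, fun v => ?_⟩
  match v with
  | some (a, _) =>
    refine DTo.within_bind ((within_symT hix κ r a K).mono hr) fun s => ?_
    exact DTo.within_lift ((within_bitT hix κ r _).mono hr) fun b => trivial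
  | none => trivial

theorem within_acc (hix : ∀ s, ix s < K) (κ r : ℕ) {N : ℕ} (hr : r ≤ N) :
    ((gProg M cv K st ix κ).acc r).Within N := by
  show (if r = 0 then DTo.lift (accT M cv K st ix κ 0 none) fun b => .ret (.inr b)
    else .ask 1 fun v => _ : DTo (Seen M) (Note M ⊕ Bool)).Within N
  split_ifs with h
  · exact DTo.within_lift ((within_accT hix κ 0 _).mono (Nat.zero_le _)) fun b => trivial
  · refine ⟨le_rfl, by omega, fun v => ?_⟩
    match v with
    | some (a, _) =>
      refine DTo.within_bind ((within_symT hix κ r a K).mono hr) fun s => ?_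
      exact DTo.within_lift ((within_accT hix κ r _).mono hr) fun b => trivial
    | none => trivial

section nd

variable [Finite A] [Finite M.W]

theorem nd_fromT_le (hK : 0 < K) (κ : ℕ) (cl : Bool) (L r : ℕ) (z : Option (A × Sym A M.W))
    (y : ℕ × ℕ × M.Q) :
    (fromT M cv K st ix κ cl L r z y).nd ≤ K * (1 + (2 * nVG K) ^ κ) := by
  unfold fromT
  split_ifs with h
  · refine (nd_pathG_le κ _ _ _ _ _ _ _).trans ?_
    calc (2 * nVG K) ^ κ ≤ 1 + (2 * nVG K) ^ κ := by omega
      _ ≤ K * (1 + (2 * nVG K) ^ κ) := Nat.le_mul_of_pos_left _ hK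
  · refine DT.nd_orN_le _ K _ fun x _ => (DT.nd_and_le _ _).trans ?_
    exact Nat.add_le_add (nd_askb_le _) (nd_pathG_le κ _ _ _ _ _ _ _)

theorem nd_accT_le (hK : 0 < K) (κ r : ℕ) (z : Option (A × Sym A M.W)) :
    (accT M cv K st ix κ r z).nd ≤ K * (K * (1 + (2 * nVG K) ^ κ)) := by
  refine DT.nd_orN_le _ K _ fun y _ => ?_
  split_ifs
  · exact nd_fromT_le hK κ _ _ _ _ _
  · simp [DT.nd_ret]

theorem nd_bitT_le (hK : 0 < K) (κ r : ℕ) (z : Option (A × Sym A M.W)) :
    (bitT M cv K st ix κ r z).nd ≤ K * (K * (1 + (2 * nVG K) ^ κ)) := by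
  have h0 : K * (1 + (2 * nVG K) ^ κ) ≤ K * (K * (1 + (2 * nVG K) ^ κ)) :=
    Nat.le_mul_of_pos_left _ hK
  unfold bitT
  split_ifs with h h1
  · simp [DT.nd_ret]
  · refine ((nd_pathG_le κ _ _ _ _ _ _ _).trans ?_).trans h0
    calc (2 * nVG K) ^ κ ≤ 1 + (2 * nVG K) ^ κ := by omega
      _ ≤ K * (1 + (2 * nVG K) ^ κ) := Nat.le_mul_of_pos_left _ hK
  · exact (nd_fromT_le hK κ _ _ _ _ _).trans h0

theorem nd_symT_le (hK : 0 < K) (κ r : ℕ) (a : A) (m : ℕ) :
    (symT M cv K st ix κ r a m).nd ≤ m * (K * (1 + (2 * nVG K) ^ κ)) := by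
  induction m with
  | zero => simp [symT, DTo.nd_ret]
  | succ m ih =>
    rw [symT, Nat.succ_mul]
    split_ifs with h
    · refine (DTo.nd_lift_le _ _).trans ?_
      have h1 := nd_fromT_le (M := M) (cv := cv) (st := st) (ix := ix) hK κ false (r - 1) r none
        (r, r, st m)
      have h2 : (iniT M cv K st ix κ r m).nd ≤ K * (1 + (2 * nVG K) ^ κ) := h1
      simp only [if_true, Bool.false_eq_true, if_false, DTo.nd_ret]
      omega
    · omega

theorem nd_upd_le (hK : 0 < K) (κ r : ℕ) :
    ((gProg M cv K st ix κ).upd r).nd ≤ 1 + Nat.card (Seen M) *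
      (K * (K * (1 + (2 * nVG K) ^ κ)) +
        Nat.card (Sym A M.W) * (K * (K * (1 + (2 * nVG K) ^ κ)))) := by
  refine DTo.nd_ask_le _ _ _ fun v => ?_
  match v with
  | some (a, _) =>
    refine (DTo.nd_bind_le _ _ (K * (K * (1 + (2 * nVG K) ^ κ))) fun s => ?_).trans ?_
    · refine (DTo.nd_lift_le _ _).trans ?_
      simp only [DTo.nd_ret]
      have := nd_bitT_le (M := M) (cv := cv) (st := st) (ix := ix) hK κ r (some (a, s))
      omega
    · exact Nat.add_le_add_right (nd_symT_le hK κ r a K) _
  | none =>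
    rw [DTo.nd_ret]
    exact Nat.zero_le _

theorem nd_acc_le (hK : 0 < K) (κ r : ℕ) :
    ((gProg M cv K st ix κ).acc r).nd ≤ 1 + Nat.card (Seen M) *
      (K * (K * (1 + (2 * nVG K) ^ κ)) +
        Nat.card (Sym A M.W) * (K * (K * (1 + (2 * nVG K) ^ κ)))) := by
  show (if r = 0 then DTo.lift (accT M cv K st ix κ 0 none) fun b => .ret (.inr b)
    else .ask 1 fun v => _ : DTo (Seen M) (Note M ⊕ Bool)).nd ≤ _
  split_ifs with h
  · refine (DTo.nd_lift_le _ _).trans ?_
    simp only [DTo.nd_ret]
    have h1 := nd_accT_le (M := M) (cv := cv) (st := st) (ix := ix) hK κ 0 none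
    have h2 : 0 < Nat.card (Seen M) := Nat.card_pos_iff.2 ⟨⟨none⟩, inferInstance⟩
    have h3 : K * (K * (1 + (2 * nVG K) ^ κ)) ≤ Nat.card (Seen M) *
      (K * (K * (1 + (2 * nVG K) ^ κ)) +
        Nat.card (Sym A M.W) * (K * (K * (1 + (2 * nVG K) ^ κ)))) :=
      (Nat.le_add_right _ _).trans (Nat.le_mul_of_pos_left _ h2)
    omega
  · refine DTo.nd_ask_le _ _ _ fun v => ?_
    match v with
    | some (a, _) =>
      refine (DTo.nd_bind_le _ _ (K * (K * (1 + (2 * nVG K) ^ κ))) fun s => ?_).trans ?_
      · refine (DTo.nd_lift_le _ _).trans ?_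
        simp only [DTo.nd_ret]
        have := nd_accT_le (M := M) (cv := cv) (st := st) (ix := ix) hK κ r (some (a, s))
        omega
      · exact Nat.add_le_add_right (nd_symT_le hK κ r a K) _
    | none =>
      rw [DTo.nd_ret]
      exact Nat.zero_le _

end nd

theorem note_fst (w : List A) {j : ℕ} (h : 1 ≤ j) :
    (noteW M cv K st w j).1 = (w[j - 1]?).map fun a => (a, gW M cv w j) := by
  unfold noteW
  rw [if_neg (by omega)]

/-- the phase, and the beginning of the window -/
def phG (K n : ℕ) : ℕ := if n < bl K then n else bl K + n % bl K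

theorem phG_facts (hK : 0 < K) (n : ℕ) : phG K n ≤ n ∧ phG K n < 2 * bl K ∧
    (phG K n < bl K → n - phG K n = 0) ∧ (¬ phG K n < bl K → bl K ≤ n ∧
      n - phG K n = bl K * (n / bl K - 1) ∧ phG K n - bl K = n % bl K ∧
        n - phG K n + bl K = bl K * (n / bl K)) := by
  have hN : 0 < bl K := by unfold bl; omega
  unfold phG
  by_cases h : n < bl K
  · rw [if_pos h]
    exact ⟨le_rfl, by omega, fun _ => by omega, fun h1 => absurd h h1⟩
  · rw [if_neg h]
    push Not at h
    have hm := Nat.mod_lt n hN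
    obtain ⟨a1, a2, a3⟩ := block_arith (bl K) hN n h
    refine ⟨a1, by omega, fun h1 => by omega, fun _ => ⟨h, by omega, by omega, ?_⟩⟩
    omega

/-- the stored table -/
theorem note_tab (hK : 0 < K) (hix : ∀ s, ix s < K) (hst : ∀ s, st (ix s) = s) (w : List A)
    {n : ℕ} (hn : ¬ phG K n < bl K) (s s' : M.Q) :
    (noteW M cv K st w (n - phG K n + (ix s * K + ix s'))).2 =
      decide (TabM M (gW M cv w) cv w (n - phG K n) s s') := by
  have hN : 0 < bl K := by unfold bl; omega
  obtain ⟨-, -, -, h4⟩ := phG_facts hK n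
  obtain ⟨h5, h6, -, -⟩ := h4 hn
  have h1 := ix_lt hix s s'
  have h2 := hix s'
  have hb : ix s * K + ix s' < bl K := by unfold bl; omega
  rw [h6]
  unfold noteW
  simp only
  rw [Nat.mul_add_mod, Nat.mod_eq_of_lt hb, Nat.mul_add_div hN, Nat.div_eq_of_lt hb,
    Nat.add_zero]
  have h3 : (ix s * K + ix s') / K = ix s := by
    rw [Nat.mul_comm, Nat.mul_add_div hK, Nat.div_eq_of_lt h2, Nat.add_zero]
  have h4 : (ix s * K + ix s') % K = ix s' := by
    rw [Nat.mul_comm, Nat.mul_add_mod, Nat.mod_eq_of_lt h2]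
  unfold tbitG
  rw [h3, h4, if_pos (hix s), hst, hst]

theorem note_ini (hK : 0 < K) (w : List A) {n : ℕ} (hn : ¬ phG K n < bl K) {x : ℕ} (hx : x < K) :
    (noteW M cv K st w (n - phG K n + (K * K + x))).2 =
      decide (IniM M (gW M cv w) cv w (n - phG K n) (st x)) := by
  have hN : 0 < bl K := by unfold bl; omega
  obtain ⟨-, -, -, h4⟩ := phG_facts hK n
  obtain ⟨h5, h6, -, -⟩ := h4 hn
  have hb : K * K + x < bl K := by unfold bl; omega
  rw [h6]
  unfold noteW
  simp only
  rw [Nat.mul_add_mod, Nat.mod_eq_of_lt hb, Nat.mul_add_div hN, Nat.div_eq_of_lt hb,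
    Nat.add_zero]
  have h3 : (K * K + x) / K = K := by
    rw [Nat.mul_add_div hK, Nat.div_eq_of_lt hx, Nat.add_zero]
  have h4 : (K * K + x) % K = x := by
    rw [Nat.mul_add_mod, Nat.mod_eq_of_lt hx]
  unfold tbitG
  rw [h3, h4, if_neg (lt_irrefl K)]

/-- paths on the view of the computed notes -/
theorem eval_path' (hK : 0 < K) (hix : ∀ s, ix s < K) (hst : ∀ s, st (ix s) = s) {w : List A}
    {n : ℕ} (hn : n ≤ w.length) {b0 cl : Bool} {L : ℕ} {z : Option (A × Sym A M.W)}
    (hb : b0 = true ↔ phG K n < bl K) (hL : L ≤ phG K n)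
    (hcl : cl = true → n - phG K n + L = w.length)
    (hz : L = phG K n → 1 ≤ phG K n → z = (w[n - 1]?).map fun a => (a, gW M cv w n))
    {κ : ℕ} (hκ : nVG K ≤ 2 ^ κ) {x y : ℕ × ℕ × M.Q}
    (hx : 1 ≤ x.1 ∧ x.1 ≤ L + 1 ∧ x.2.1 ≤ x.1) :
    (pathG M cv K st ix κ b0 cl L (phG K n) z x y).eval
      (GProg.view w (noteW M cv K st w) n) = true ↔
      ReflTransGen (WJ M (gW M cv w) cv w (n - phG K n) (if cl = true then L + 1 else L)) x y := by
  obtain ⟨h1, h2, h3, h4⟩ := phG_facts hK n
  refine eval_pathG hix hst hn (by omega) hL hcl (fun h => h3 (hb.1 h)) ?_ ?_ hz (by omega) hκ hx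
  · intro h
    have h5 : ¬ phG K n < bl K := by
      intro h6
      rw [hb.2 h6] at h
      cases h
    refine ⟨?_, note_tab hK hix hst w h5⟩
    have : K * K ≤ bl K := by unfold bl; omega
    omega
  · intro j hj _
    exact note_fst w hj

theorem eval_fromT (hK : 0 < K) (hix : ∀ s, ix s < K) (hst : ∀ s, st (ix s) = s) {w : List A}
    {n : ℕ} (hn : n ≤ w.length) {cl : Bool} {L : ℕ} {z : Option (A × Sym A M.W)}
    (hL : L ≤ phG K n)
    (hcl : cl = true → n - phG K n + L = w.length)
    (hz : L = phG K n → 1 ≤ phG K n → z = (w[n - 1]?).map fun a => (a, gW M cv w n))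
    {κ : ℕ} (hκ : nVG K ≤ 2 ^ κ) {y : ℕ × ℕ × M.Q} :
    (fromT M cv K st ix κ cl L (phG K n) z y).eval
      (GProg.view w (noteW M cv K st w) n) = true ↔
      ∃ s0, IniM M (gW M cv w) cv w (n - phG K n) s0 ∧
        ReflTransGen (WJ M (gW M cv w) cv w (n - phG K n) (if cl = true then L + 1 else L))
          (1, 1, s0) y := by
  have hx : ∀ s : M.Q, 1 ≤ ((1, 1, s) : ℕ × ℕ × M.Q).1 ∧
      ((1, 1, s) : ℕ × ℕ × M.Q).1 ≤ L + 1 ∧
      ((1, 1, s) : ℕ × ℕ × M.Q).2.1 ≤ ((1, 1, s) : ℕ × ℕ × M.Q).1 :=
    fun s => ⟨le_rfl, by show 1 ≤ L + 1; omega, le_rfl⟩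
  obtain ⟨h1, h2, h3, h4⟩ := phG_facts hK n
  unfold fromT
  by_cases h : phG K n < bl K
  · rw [if_pos h, eval_path' hK hix hst hn (by simp [h]) hL hcl hz hκ (hx _)]
    constructor
    · intro h5
      refine ⟨M.qI, ?_, h5⟩
      rw [h3 h]
      exact iniM_zero.2 rfl
    · rintro ⟨s0, h5, h6⟩
      rw [h3 h, iniM_zero] at h5
      rw [h5] at h6
      exact h6
  · obtain ⟨h5, h6, h7, h8⟩ := h4 h
    have hbit : ∀ x < K, (askb M (phG K n - (K * K + x))).eval
        (GProg.view w (noteW M cv K st w) n) =
          decide (IniM M (gW M cv w) cv w (n - phG K n) (st x)) := by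
      intro x hx
      have hx' : K * K + x < bl K := by unfold bl; omega
      rw [eval_askb (by omega)]
      have e1 : n - (phG K n - (K * K + x)) = n - phG K n + (K * K + x) := by omega
      rw [e1, note_ini hK w h hx]
    rw [if_neg h, DT.eval_orN]
    constructor
    · rintro ⟨x, hxK, h9⟩
      rw [DT.eval_and, Bool.and_eq_true, hbit x hxK, decide_eq_true_eq,
        eval_path' hK hix hst hn (by simp [h]) hL hcl hz hκ (hx _)] at h9
      exact ⟨_, h9⟩
    · rintro ⟨s0, h9, h10⟩
      refine ⟨ix s0, hix s0, ?_⟩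
      rw [DT.eval_and, Bool.and_eq_true, hbit _ (hix s0), decide_eq_true_eq,
        eval_path' hK hix hst hn (by simp [h]) hL hcl hz hκ (hx _), hst]
      exact ⟨h9, h10⟩

theorem eval_iniT (hK : 0 < K) (hix : ∀ s, ix s < K) (hst : ∀ s, st (ix s) = s) {w : List A}
    {i : ℕ} (hn : i < w.length) {κ : ℕ} (hκ : nVG K ≤ 2 ^ κ) (x : ℕ) :
    (iniT M cv K st ix κ (phG K (i + 1)) x).eval
      (GProg.view w (noteW M cv K st w) (i + 1)) = true ↔
      IniM M (gW M cv w) cv w i (st x) := by
  obtain ⟨h1, h2, h3, h4⟩ := phG_facts hK (i + 1)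
  have hr : 1 ≤ phG K (i + 1) := by
    unfold phG
    have hN : 0 < bl K := by unfold bl; omega
    split_ifs <;> omega
  unfold iniT
  rw [eval_fromT hK hix hst (by omega) (by omega) (fun h => by simp at h)
    (fun h => by omega) hκ]
  have h5 := iniM_window (M := M) (g := gW M cv w) (cv := cv) (w := w)
    (i := i + 1 - phG K (i + 1)) (L := phG K (i + 1) - 1) (s' := st x) (by omega)
  have e1 : i + 1 - phG K (i + 1) + (phG K (i + 1) - 1) = i := by omega
  have e2 : phG K (i + 1) - 1 + 1 = phG K (i + 1) := by omega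
  rw [e1, e2] at h5
  rw [h5]
  simp

/-- the computed symbol -/
theorem eval_symT (hM : CommonWrites M cv) (hK : 0 < K) (hix : ∀ s, ix s < K)
    (hst : ∀ s, st (ix s) = s) {w : List A}
    {i : ℕ} (hn : i < w.length) {κ : ℕ} (hκ : nVG K ≤ 2 ^ κ) :
    (symT M cv K st ix κ (phG K (i + 1)) w[i] K).eval
      (GProg.view w (noteW M cv K st w) (i + 1)) = gW M cv w (i + 1) := by
  have key : ∀ m, (symT M cv K st ix κ (phG K (i + 1)) w[i] m).eval
      (GProg.view w (noteW M cv K st w) (i + 1)) = gW M cv w (i + 1) ∨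
      ((symT M cv K st ix κ (phG K (i + 1)) w[i] m).eval
        (GProg.view w (noteW M cv K st w) (i + 1)) = Sym.inp w[i] ∧
        ∀ x < m, IniM M (gW M cv w) cv w i (st x) → M.δ (st x) (Sym.inp w[i]) = ∅) := by
    intro m
    induction m with
    | zero => exact Or.inr ⟨rfl, fun x hx => absurd hx (Nat.not_lt_zero x)⟩
    | succ m ih =>
      rw [symT]
      by_cases h : (M.δ (st m) (Sym.inp w[i])).Nonempty
      · rw [dif_pos h, DTo.eval_lift]
        by_cases h1 : (iniT M cv K st ix κ (phG K (i + 1)) m).eval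
            (GProg.view w (noteW M cv K st w) (i + 1)) = true
        · rw [if_pos h1]
          left
          rw [eval_iniT hK hix hst hn hκ] at h1
          exact (gW_eq hM hn h1 h.choose_spec).symm
        · rw [if_neg h1]
          rw [eval_iniT hK hix hst hn hκ] at h1
          rcases ih with ih | ih
          · exact Or.inl ih
          · refine Or.inr ⟨ih.1, fun x hx hI => ?_⟩
            by_cases hxm : x = m
            · rw [hxm] at hI
              exact absurd hI h1
            · exact ih.2 x (by omega) hI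
      · rw [dif_neg h]
        rcases ih with ih | ih
        · exact Or.inl ih
        · refine Or.inr ⟨ih.1, fun x hx hI => ?_⟩
          by_cases hxm : x = m
          · rw [hxm]
            exact Set.not_nonempty_iff_eq_empty.1 h
          · exact ih.2 x (by omega) hI
  rcases key K with h | ⟨h1, h2⟩
  · exact h
  · rw [h1]
    refine (gW_default hM hn fun s hs => ?_).symm
    have := h2 (ix s) (hix s)
    rw [hst] at this
    exact this hs

theorem eval_bitT (hK : 0 < K) (hix : ∀ s, ix s < K) (hst : ∀ s, st (ix s) = s) {w : List A}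
    {i : ℕ} (hn : i < w.length) {κ : ℕ} (hκ : nVG K ≤ 2 ^ κ) :
    (bitT M cv K st ix κ (phG K (i + 1)) (some (w[i], gW M cv w (i + 1)))).eval
      (GProg.view w (noteW M cv K st w) (i + 1)) = (noteW M cv K st w (i + 1)).2 := by
  have hz : (some (w[i], gW M cv w (i + 1)) : Option (A × Sym A M.W)) =
      (w[i + 1 - 1]?).map fun a => (a, gW M cv w (i + 1)) := by
    rw [Nat.add_sub_cancel, List.getElem?_eq_getElem hn]
    rfl
  have hN : 0 < bl K := by unfold bl; omega
  obtain ⟨h1, h2, h3, h4⟩ := phG_facts hK (i + 1)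
  show _ = decide (tbitG M cv K st w (bl K * ((i + 1) / bl K)) ((i + 1) % bl K))
  unfold bitT
  by_cases h : phG K (i + 1) < bl K
  · have h5 := h3 h
    have h6 : phG K (i + 1) = i + 1 := by omega
    rw [h6] at h
    rw [h6, if_pos h, Nat.mod_eq_of_lt h, Nat.div_eq_of_lt h, Nat.mul_zero]
    exact decide_eq_decide.2 (tbitG_zero w (i + 1)).symm
  · obtain ⟨h5, h6, h7, h8⟩ := h4 h
    rw [if_neg h, h7, Bool.eq_iff_iff, decide_eq_true_eq]
    unfold tbitG
    rw [← h8]
    by_cases hrow : (i + 1) % bl K / K < K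
    · rw [if_pos hrow, if_pos hrow, tabM_window (by omega) (by omega),
        eval_path' hK hix hst (by omega) (by simp [h]) (by omega) (fun h => by simp at h)
          (fun _ _ => hz) hκ ⟨by show 1 ≤ bl K + 1; omega, le_rfl,
            by show bl K ≤ bl K + 1; omega⟩]
      simp
    · rw [if_neg hrow, if_neg hrow, iniM_window (by omega),
        eval_fromT hK hix hst (by omega) (by omega) (fun h => by simp at h)
          (fun _ _ => hz) hκ]
      simp

theorem eval_accT (hM : CommonWrites M cv) (hK : 0 < K) (hix : ∀ s, ix s < K)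
    (hst : ∀ s, st (ix s) = s) {w : List A} {z : Option (A × Sym A M.W)}
    (hz : 1 ≤ phG K w.length → z = (w[w.length - 1]?).map fun a => (a, gW M cv w w.length))
    {κ : ℕ} (hκ : nVG K ≤ 2 ^ κ) :
    (accT M cv K st ix κ (phG K w.length) z).eval
      (GProg.view w (noteW M cv K st w) w.length) = true ↔ w ∈ M.lang cv := by
  obtain ⟨h1, h2, h3, h4⟩ := phG_facts hK w.length
  have key : ∀ f : M.Q, (fromT M cv K st ix κ true (phG K w.length) (phG K w.length) z
      (phG K w.length + 2, phG K w.length + 2, f)).eval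
      (GProg.view w (noteW M cv K st w) w.length) = true ↔
      IniM M (gW M cv w) cv w (w.length + 1) f := by
    intro f
    rw [eval_fromT hK hix hst le_rfl le_rfl (fun _ => by omega) (fun _ h => hz h) hκ]
    have h5 := iniM_window (M := M) (g := gW M cv w) (cv := cv) (w := w)
      (i := w.length - phG K w.length) (L := phG K w.length + 1) (s' := f) (by omega)
    have e1 : w.length - phG K w.length + (phG K w.length + 1) = w.length + 1 := by omega
    rw [e1] at h5
    rw [h5]
    simp
  rw [mem_lang_iffM (writes_gW hM w)]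
  unfold accT
  rw [DT.eval_orN]
  constructor
  · rintro ⟨y, hy, h⟩
    split_ifs at h with h5
    · exact ⟨_, h5, (key _).1 h⟩
    · simp [DT.eval] at h
  · rintro ⟨f, hf, h⟩
    refine ⟨ix f, hix f, ?_⟩
    rw [hst, if_pos hf]
    exact (key f).2 h

/-- The machine of the program accepts the language of `M`. -/
theorem gProg_lang (hM : CommonWrites M cv) (cv' : Bool) (hK : 0 < K)
    (hix : ∀ s, ix s < K) (hst : ∀ s, st (ix s) = s) {κ : ℕ} (hκ : nVG K ≤ 2 ^ κ) :
    (gProg M cv K st ix κ).mach.lang cv' = M.lang cv := by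
  have hph : ∀ n, (gProg M cv K st ix κ).ph n = phG K n := fun n => ph_gProg κ hK n
  ext w
  have hfin : ∀ b : Bool, (((gProg M cv K st ix κ).acc (phG K w.length)).eval
      (GProg.view w (noteW M cv K st w) w.length) = .inr b) →
      (w ∈ (gProg M cv K st ix κ).mach.lang cv' ↔ b = true) := by
    intro b hb
    refine GProg.mem_lang _ cv' w (noteW M cv K st w) ?_ ?_ ?_ b ?_
    · -- the initial note
      show noteW M cv K st w 0 = (none, decide (tbit0 M K st 0))
      unfold noteW
      rw [if_pos rfl, Nat.zero_div, Nat.mul_zero, Nat.zero_mod]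
      exact Prod.ext rfl (decide_eq_decide.2 (tbitG_zero w 0))
    · -- the notes
      intro i hi
      rw [hph]
      obtain ⟨h1, -⟩ := phG_facts hK (i + 1)
      refine ⟨within_upd hix κ _ (by omega) h1, ?_⟩
      have hv : GProg.view w (noteW M cv K st w) (i + 1) 1 =
          some (w[i], noteW M cv K st w i) := by
        unfold GProg.view GProg.cellv
        rw [Nat.add_sub_cancel, List.getElem?_eq_getElem hi]
        rfl
      show ((match GProg.view w (noteW M cv K st w) (i + 1) 1 with
        | some (a, _) => (symT M cv K st ix κ (phG K (i + 1)) a K).bind fun s =>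
            .lift (bitT M cv K st ix κ (phG K (i + 1)) (some (a, s))) fun b =>
              .ret (.inl (some (a, s), b))
        | none => .ret (.inr false) : DTo (Seen M) (Note M ⊕ Bool))).eval _ = _
      rw [hv]
      simp only
      rw [DTo.eval_bind, DTo.eval_lift, eval_symT hM hK hix hst hi hκ,
        eval_bitT hK hix hst hi hκ]
      show Sum.inl (some (w[i], gW M cv w (i + 1)), (noteW M cv K st w (i + 1)).2) = _
      congr 1
      refine Prod.ext ?_ rfl
      rw [note_fst w (by omega), Nat.add_sub_cancel, List.getElem?_eq_getElem hi]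
      rfl
    · rw [hph]
      exact within_acc hix κ _ (phG_facts hK w.length).1
    · rw [hph]
      exact hb
  by_cases h0 : phG K w.length = 0
  · have h1 := hfin ((accT M cv K st ix κ 0 none).eval
      (GProg.view w (noteW M cv K st w) w.length)) (by
        have hz0 : (gProg M cv K st ix κ).acc 0 =
            DTo.lift (accT M cv K st ix κ 0 none) (fun b => .ret (.inr b)) := by
          simp only [gProg, if_true]
        rw [h0, hz0, DTo.eval_lift]
        rfl)
    rw [h1, ← eval_accT hM hK hix hst (z := none) (fun h => by omega) hκ, h0]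
  · have hlen : 1 ≤ w.length := by
      have := (phG_facts hK w.length).1
      omega
    obtain ⟨i, hi⟩ : ∃ i, w.length = i + 1 := ⟨w.length - 1, by omega⟩
    have hi' : i < w.length := by omega
    have hv : GProg.view w (noteW M cv K st w) w.length 1 =
        some (w[i], noteW M cv K st w i) := by
      have e : w.length - 1 = i := by omega
      unfold GProg.view GProg.cellv
      rw [e, List.getElem?_eq_getElem hi']
      rfl
    have hsym := eval_symT hM hK hix hst hi' hκ
    rw [← hi] at hsym
    have h1 := hfin ((accT M cv K st ix κ (phG K w.length)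
        (some (w[i], gW M cv w w.length))).eval
      (GProg.view w (noteW M cv K st w) w.length)) (by
        show ((if phG K w.length = 0 then DTo.lift (accT M cv K st ix κ 0 none)
            fun b => .ret (.inr b)
          else .ask 1 fun v =>
            match v with
            | some (a, _) => (symT M cv K st ix κ (phG K w.length) a K).bind fun s =>
                .lift (accT M cv K st ix κ (phG K w.length) (some (a, s))) fun b =>
                  .ret (.inr b)
            | none => .ret (.inr false) : DTo (Seen M) (Note M ⊕ Bool))).eval _ = _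
        rw [if_neg h0]
        show ((match GProg.view w (noteW M cv K st w) w.length 1 with
            | some (a, _) => (symT M cv K st ix κ (phG K w.length) a K).bind fun s =>
                .lift (accT M cv K st ix κ (phG K w.length) (some (a, s))) fun b =>
                  .ret (.inr b)
            | none => .ret (.inr false) : DTo (Seen M) (Note M ⊕ Bool))).eval _ = _
        rw [hv]
        simp only
        rw [DTo.eval_bind, DTo.eval_lift, hsym]
        rfl)
    rw [h1, eval_accT hM hK hix hst (fun _ => ?_) hκ]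
    have e : w.length - 1 = i := by omega
    rw [e, List.getElem?_eq_getElem hi']
    rfl

end Pool.Agent.P0036f5g
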