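import Pool.Agent.Lib.P0036f5w.Mark

/-!
# Machines all of whose computations write the same symbols

A configuration is described by the number `j` of the first cell not visited, the head position
`x ≤ j` and the state; `g x` is the symbol which the cell `x` gets at its first visit.
-/

set_option autoImplicit false

namespace Pool.Agent.P0036f5g

open Pool.Agent.P0036f5v2 Pool.Agent.P0036f5w Relation

variable {A : Type} (M : Mach A)

/-- the configurations that can be reached on the input `w` -/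
def Reach (cv : Bool) (w : List A) (c : M.Cfg) : Prop :=
  ReflTransGen (M.Step cv w.length) (M.init w) c

/-- On every input all computations write the same symbols: two configurations that can be reached
on the same input have the same symbol in every cell that has been visited in both. -/
def CommonWrites (cv : Bool) : Prop :=
  ∀ (w : List A) (c c' : M.Cfg), Reach M cv w c → Reach M cv w c' →
    ∀ x ∈ c.seen, x ∈ c'.seen → c.tape x = c'.tape x

variable (g : ℕ → Sym A M.W) (cv : Bool)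

/-- the symbol in the cell `x` if the cells before `j` have been visited -/
def symM (w : List A) (j x : ℕ) : Sym A M.W :=
  if x = 0 then Sym.lend else
    match w[x - 1]? with
    | some a => if x < j then g x else Sym.inp a
    | none => Sym.rend

/-- a possible move in the cell `x` if the cells before `j` have been visited, `x ≤ j` -/
def mvM (w : List A) (j x : ℕ) (q : M.Q) (d : Bool) (q' : M.Q) : Prop :=
  if 1 ≤ x ∧ x ≤ w.length ∧ x = j then mv M q (symM M g w j x) d q'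
  else mvf M cv q (symM M g w j x) d q'

/-- one move; `c = (j, x, q)`: first cell not visited, head position, state -/
def JStep (w : List A) (c c' : ℕ × ℕ × M.Q) : Prop :=
  c.2.1 ≤ w.length + 1 ∧ ∃ d, mvM M g cv w c.1 c.2.1 c.2.2 d c'.2.2 ∧
    (c.2.1 = 0 → d = true) ∧
    c'.2.1 = (if d = true then c.2.1 + 1 else c.2.1 - 1) ∧
    c'.1 = if c.2.1 = c.1 then c.1 + 1 else c.1

variable {M g cv}

theorem jstep_le {w : List A} {c c' : ℕ × ℕ × M.Q} (h : JStep M g cv w c c') (hc : c.2.1 ≤ c.1) :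
    c'.2.1 ≤ c'.1 := by
  obtain ⟨-, d, -, -, h1, h2⟩ := h
  rw [h1, h2]
  split_ifs <;> omega

theorem symM_update (w : List A) {j : ℕ} (h1 : 1 ≤ j) (h2 : j ≤ w.length) :
    Function.update (symM M g w j) j (g j) = symM M g w (j + 1) := by
  funext x
  by_cases hx : x = j
  · subst hx
    rw [Function.update_self]
    unfold symM
    rw [if_neg (by omega), List.getElem?_eq_getElem (by omega)]
    simp
  · rw [Function.update_of_ne hx]
    unfold symM
    by_cases h3 : x = 0
    · rw [if_pos h3, if_pos h3]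
    · rw [if_neg h3, if_neg h3]
      cases w[x - 1]? with
      | none => rfl
      | some a =>
        simp only
        by_cases h4 : x < j
        · rw [if_pos h4, if_pos (by omega)]
        · rw [if_neg h4, if_neg (by omega)]

theorem symM_congr (w : List A) {j j' : ℕ} (h1 : w.length + 1 ≤ j) (h2 : w.length + 1 ≤ j') :
    symM M g w j = symM M g w j' := by
  funext x
  unfold symM
  by_cases h3 : x = 0
  · rw [if_pos h3, if_pos h3]
  · rw [if_neg h3, if_neg h3]
    cases hx : w[x - 1]? with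
    | none => rfl
    | some a =>
      have h4 : x - 1 < w.length := by
        by_contra h5
        rw [List.getElem?_eq_none (by omega)] at hx
        cases hx
      simp only
      rw [if_pos (by omega), if_pos (by omega)]

theorem symM_init (w : List A) : symM M g w 1 = M.initTape w := by
  funext x
  unfold symM Mach.initTape
  by_cases h3 : x = 0
  · rw [if_pos h3, if_pos h3]
  · rw [if_neg h3, if_neg h3]
    cases w[x - 1]? with
    | none => rfl
    | some a =>
      simp only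
      rw [if_neg (by omega)]

theorem symM_inp (w : List A) {j x : ℕ} (h1 : 1 ≤ x) (h2 : x ≤ w.length) :
    symM M g w j x = if x < j then g x else Sym.inp (w[x - 1]'(by omega)) := by
  unfold symM
  rw [if_neg (by omega), List.getElem?_eq_getElem (by omega)]

/-- the invariant: the configuration `c` is described by `(j, x, q)` -/
def Desc (M : Mach A) (g : ℕ → Sym A M.W) (w : List A) (c : M.Cfg) (p : ℕ × ℕ × M.Q) : Prop :=
  c.pos = p.2.1 ∧ c.st = p.2.2 ∧ p.2.1 ≤ p.1 ∧ 1 ≤ p.1 ∧ c.tape = symM M g w p.1 ∧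
    ∀ x, 1 ≤ x → x ≤ w.length → (x ∈ c.seen ↔ x < p.1)

/-- `g x` is the symbol written in the cell `x` by all computations on `w` -/
def Writes (M : Mach A) (g : ℕ → Sym A M.W) (cv : Bool) (w : List A) : Prop :=
  ∀ c, Reach M cv w c → 1 ≤ c.pos → c.pos ≤ w.length → c.pos ∉ c.seen →
    ∀ x ∈ M.δ c.st (c.tape c.pos), Sym.ofW x.2.1 = g c.pos

theorem desc_step {w : List A} (hg : Writes M g cv w)
    {c c' : M.Cfg} (hr : Reach M cv w c) {p : ℕ × ℕ × M.Q} (hc : Desc M g w c p)
    (h : M.Step cv w.length c c') :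
    ∃ p', JStep M g cv w p p' ∧ Desc M g w c' p' := by
  obtain ⟨h1, h2, h3, h4, h5, h6⟩ := hc
  obtain ⟨g1, x, d, g2, g3, g4, g5, g6, g7⟩ := h
  have hfresh : (1 ≤ c.pos ∧ c.pos ≤ w.length ∧ c.pos ∉ c.seen) ↔
      (1 ≤ p.2.1 ∧ p.2.1 ≤ w.length ∧ p.2.1 = p.1) := by
    rw [← h1]
    constructor
    · rintro ⟨a1, a2, a3⟩
      rw [h6 _ a1 a2] at a3
      exact ⟨a1, a2, by omega⟩
    · rintro ⟨a1, a2, a3⟩
      refine ⟨a1, a2, ?_⟩
      rw [h6 _ a1 a2]
      omega
  refine ⟨(if p.2.1 = p.1 then p.1 + 1 else p.1, c'.pos, c'.st), ⟨by rw [← h1]; exact g1, d, ?_,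
    by rw [← h1]; exact g3, by rw [← h1]; exact g4, rfl⟩, ?_⟩
  · show mvM M g cv w p.1 p.2.1 p.2.2 d c'.st
    unfold mvM
    rw [h5, h1, h2] at g2
    by_cases h7 : 1 ≤ p.2.1 ∧ p.2.1 ≤ w.length ∧ p.2.1 = p.1
    · rw [if_pos h7]
      exact ⟨x, g2⟩
    · rw [if_neg h7]
      have h8 := (g6 (fun h => h7 (hfresh.1 h))).2
      rw [h5, h1] at h8
      exact ⟨x, g2, h8⟩
  · refine ⟨rfl, rfl, ?_, ?_, ?_, ?_⟩
    · show c'.pos ≤ _
      rw [g4, h1]
      split_ifs <;> omega
    · show 1 ≤ (if p.2.1 = p.1 then p.1 + 1 else p.1)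
      split_ifs <;> omega
    · show c'.tape = symM M g w (if p.2.1 = p.1 then p.1 + 1 else p.1)
      by_cases h7 : 1 ≤ p.2.1 ∧ p.2.1 ≤ w.length ∧ p.2.1 = p.1
      · have h8 := hfresh.2 h7
        have h9 : Sym.ofW x = g c.pos := hg c hr h8.1 h8.2.1 h8.2.2 _ g2
        rw [g5 h8, h9, if_pos h7.2.2, h5, h1, h7.2.2]
        exact symM_update w (by omega) (by omega)
      · rw [(g6 (fun h => h7 (hfresh.1 h))).1, h5]
        by_cases h8 : p.2.1 = p.1
        · rw [if_pos h8]
          refine symM_congr w ?_ ?_ <;> omega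
        · rw [if_neg h8]
    · intro y hy1 hy2
      show y ∈ c'.seen ↔ y < (if p.2.1 = p.1 then p.1 + 1 else p.1)
      rw [g7, Set.mem_insert_iff, h6 y hy1 hy2, h1]
      split_ifs <;> omega

theorem step_desc {w : List A} (hg : Writes M g cv w)
    {c : M.Cfg} (hr : Reach M cv w c) {p p' : ℕ × ℕ × M.Q} (hc : Desc M g w c p)
    (h : JStep M g cv w p p') :
    ∃ c', M.Step cv w.length c c' ∧ Desc M g w c' p' := by
  have hc' := hc
  obtain ⟨h1, h2, h3, h4, h5, h6⟩ := hc'
  obtain ⟨g1, d, g2, g3, g4, g5⟩ := h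
  have hfresh : (1 ≤ c.pos ∧ c.pos ≤ w.length ∧ c.pos ∉ c.seen) ↔
      (1 ≤ p.2.1 ∧ p.2.1 ≤ w.length ∧ p.2.1 = p.1) := by
    rw [← h1]
    constructor
    · rintro ⟨a1, a2, a3⟩
      rw [h6 _ a1 a2] at a3
      exact ⟨a1, a2, by omega⟩
    · rintro ⟨a1, a2, a3⟩
      refine ⟨a1, a2, ?_⟩
      rw [h6 _ a1 a2]
      omega
  have hmain : ∃ x, (p'.2.2, x, d) ∈ M.δ c.st (c.tape c.pos) ∧
      (¬ (1 ≤ c.pos ∧ c.pos ≤ w.length ∧ c.pos ∉ c.seen) → OkW cv (c.tape c.pos) x) := by
    unfold mvM at g2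
    rw [h5, h1, h2]
    split_ifs at g2 with h7
    · obtain ⟨x, g2⟩ := g2
      exact ⟨x, g2, fun h => absurd (h1 ▸ hfresh.2 h7) (h1 ▸ h)⟩
    · obtain ⟨x, g2, g2'⟩ := g2
      exact ⟨x, g2, fun _ => g2'⟩
  obtain ⟨x, k1, k2⟩ := hmain
  by_cases h7 : 1 ≤ c.pos ∧ c.pos ≤ w.length ∧ c.pos ∉ c.seen
  · have hs : M.Step cv w.length c ⟨p'.2.2, p'.2.1,
        Function.update c.tape c.pos (Sym.ofW x), insert c.pos c.seen⟩ :=
      ⟨by rw [h1]; exact g1, x, d, k1, by rw [h1]; exact g3, by rw [h1]; exact g4,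
        fun _ => rfl, fun h => absurd h7 h, rfl⟩
    obtain ⟨p'', j1, j2⟩ := desc_step hg hr hc hs
    refine ⟨_, hs, ?_⟩
    have e : p'' = p' := by
      obtain ⟨-, d', -, -, -, e3⟩ := j1
      have e1 := j2.1
      have e2 := j2.2.1
      refine Prod.ext (e3.trans g5.symm) (Prod.ext e1.symm e2.symm)
    subst e
    exact j2
  · have hs : M.Step cv w.length c ⟨p'.2.2, p'.2.1, c.tape, insert c.pos c.seen⟩ :=
      ⟨by rw [h1]; exact g1, x, d, k1, by rw [h1]; exact g3, by rw [h1]; exact g4,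
        fun h => absurd h h7, fun _ => ⟨rfl, k2 h7⟩, rfl⟩
    obtain ⟨p'', j1, j2⟩ := desc_step hg hr hc hs
    refine ⟨_, hs, ?_⟩
    have e : p'' = p' := by
      obtain ⟨-, d', -, -, -, e3⟩ := j1
      have e1 := j2.1
      have e2 := j2.2.1
      refine Prod.ext (e3.trans g5.symm) (Prod.ext e1.symm e2.symm)
    subst e
    exact j2

theorem desc_init (w : List A) : Desc M g w (M.init w) (1, 1, M.qI) := by
  refine ⟨rfl, rfl, le_rfl, le_rfl, (symM_init w).symm, fun x hx _ => ?_⟩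
  show x ∈ (∅ : Set ℕ) ↔ x < 1
  simp
  omega

/-- the real configurations and their descriptions -/
theorem reach_desc {w : List A} (hg : Writes M g cv w) {c : M.Cfg} (hr : Reach M cv w c) :
    ∃ p, Desc M g w c p ∧ ReflTransGen (JStep M g cv w) (1, 1, M.qI) p := by
  induction hr with
  | refl => exact ⟨_, desc_init w, ReflTransGen.refl⟩
  | @tail b c hb hbc ih =>
    obtain ⟨p, h1, h2⟩ := ih
    obtain ⟨p', h3, h4⟩ := desc_step hg hb h1 hbc
    exact ⟨p', h4, h2.tail h3⟩

theorem desc_reach {w : List A} (hg : Writes M g cv w) {p : ℕ × ℕ × M.Q}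
    (hp : ReflTransGen (JStep M g cv w) (1, 1, M.qI) p) :
    ∃ c : M.Cfg, Reach M cv w c ∧ Desc M g w c p := by
  induction hp with
  | refl => exact ⟨M.init w, ReflTransGen.refl, desc_init w⟩
  | @tail b p _ hbp ih =>
    obtain ⟨c, h1, h2⟩ := ih
    obtain ⟨c', h3, h4⟩ := step_desc hg h1 h2 hbp
    exact ⟨c', h1.tail h3, h4⟩

theorem lang_iffM {w : List A} (hg : Writes M g cv w) :
    w ∈ M.lang cv ↔ ∃ s ∈ M.F, ∃ j,
      ReflTransGen (JStep M g cv w) (1, 1, M.qI) (j, w.length + 2, s) := by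
  constructor
  · rintro ⟨c, hr, hp, hF⟩
    obtain ⟨p, h1, h2⟩ := reach_desc hg hr
    refine ⟨c.st, hF, p.1, ?_⟩
    have e : p = (p.1, w.length + 2, c.st) :=
      Prod.ext rfl (Prod.ext (h1.1.symm.trans hp) h1.2.1.symm)
    rw [← e]
    exact h2
  · rintro ⟨s, hF, j, hr⟩
    obtain ⟨c, h1, h2⟩ := desc_reach hg hr
    exact ⟨c, h1, h2.1, by rw [h2.2.1]; exact hF⟩

open Classical in
/-- the symbols written by a machine with common writes -/
noncomputable def gW (M : Mach A) (cv : Bool) (w : List A) (j : ℕ) : Sym A M.W :=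
  if h : ∃ t : M.Cfg × (M.Q × (A ⊕ M.W) × Bool), Reach M cv w t.1 ∧ t.1.pos = j ∧ 1 ≤ j ∧
      j ≤ w.length ∧ j ∉ t.1.seen ∧ t.2 ∈ M.δ t.1.st (t.1.tape j)
  then Sym.ofW h.choose.2.2.1 else M.initTape w j

theorem writes_gW (hM : CommonWrites M cv) (w : List A) : Writes M (gW M cv w) cv w := by
  intro c hr h1 h2 h3 x hx
  have h : ∃ t : M.Cfg × (M.Q × (A ⊕ M.W) × Bool), Reach M cv w t.1 ∧ t.1.pos = c.pos ∧
      1 ≤ c.pos ∧ c.pos ≤ w.length ∧ c.pos ∉ t.1.seen ∧ t.2 ∈ M.δ t.1.st (t.1.tape c.pos) :=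
    ⟨(c, x), hr, rfl, h1, h2, h3, hx⟩
  unfold gW
  rw [dif_pos h]
  obtain ⟨k1, k2, -, -, k3, k4⟩ := h.choose_spec
  generalize h.choose = t at k1 k2 k3 k4 ⊢
  -- both machines make their move
  have hs : ∀ (b : M.Cfg) (y : M.Q × (A ⊕ M.W) × Bool), Reach M cv w b → b.pos = c.pos →
      c.pos ∉ b.seen → y ∈ M.δ b.st (b.tape c.pos) →
      ∃ b', Reach M cv w b' ∧ c.pos ∈ b'.seen ∧ b'.tape c.pos = Sym.ofW y.2.1 := by
    intro b y hb hp hbs hy
    refine ⟨⟨y.1, if y.2.2 = true then b.pos + 1 else b.pos - 1,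
      Function.update b.tape b.pos (Sym.ofW y.2.1), insert b.pos b.seen⟩, hb.tail ?_, ?_, ?_⟩
    · refine ⟨by omega, y.2.1, y.2.2, ?_, fun h0 => by omega, rfl, fun _ => rfl, fun hn => ?_, rfl⟩
      · rw [hp]
        exact hy
      · exact absurd ⟨by omega, by omega, by rw [hp]; exact hbs⟩ hn
    · rw [hp]
      exact Set.mem_insert _ _
    · show Function.update b.tape b.pos (Sym.ofW y.2.1) c.pos = _
      rw [hp, Function.update_self]
  obtain ⟨b, b1, b2, b3⟩ := hs c x hr rfl h3 hx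
  obtain ⟨b', b1', b2', b3'⟩ := hs t.1 t.2 k1 k2 k3 k4
  rw [← b3, ← b3']
  exact hM w b b' b1 b1' _ b2 b2'

end Pool.Agent.P0036f5g
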